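import Mathlib

/-!
# Scattered subwords: number of occurrences, and polynomial functions on words modulo 2
-/

set_option autoImplicit false

open Finset

namespace Pool.Agent.Work.MP_02e323_helper29

variable {α : Type*}

/-- Number of occurrences of `u` as a scattered subword of `w`. -/
noncomputable def occ (u w : List α) : ℕ :=
  {f : Fin u.length → Fin w.length | StrictMono f ∧ ∀ i, w.get (f i) = u.get i}.ncard

lemma occ_nil (w : List α) : occ [] w = 1 := by
  unfold occ
  have : {f : Fin ([] : List α).length → Fin w.length |
      StrictMono f ∧ ∀ i, w.get (f i) = ([] : List α).get i} = {fun i => i.elim0} := by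
    ext f
    constructor
    · intro _
      funext i
      exact i.elim0
    · rintro rfl
      exact ⟨fun i => i.elim0, fun i => i.elim0⟩
  rw [this, Set.ncard_singleton]

lemma occ_cons_nil (c : α) (u : List α) : occ (c :: u) [] = 0 := by
  unfold occ
  have : {f : Fin (c :: u).length → Fin ([] : List α).length |
      StrictMono f ∧ ∀ i, ([] : List α).get (f i) = (c :: u).get i} = ∅ := by
    ext f
    constructor
    · intro _
      exact (f ⟨0, by simp⟩).elim0
    · intro h
      exact h.elim
  rw [this, Set.ncard_empty]

lemma occ_cons_cons [DecidableEq α] (c d : α) (u w : List α) :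
    occ (c :: u) (d :: w) = occ (c :: u) w + if c = d then occ u w else 0 := by
  classical
  set A : Set (Fin (u.length + 1) → Fin (w.length + 1)) :=
    {f | StrictMono f ∧ ∀ i, (d :: w).get (f i) = (c :: u).get i} with hA
  set B : Set (Fin (u.length + 1) → Fin w.length) :=
    {f | StrictMono f ∧ ∀ i, w.get (f i) = (c :: u).get i} with hB
  set C : Set (Fin u.length → Fin w.length) :=
    {f | StrictMono f ∧ ∀ i, w.get (f i) = u.get i} with hC
  have e1 : occ (c :: u) (d :: w) = A.ncard := rfl
  have e2 : occ (c :: u) w = B.ncard := rfl
  have e3 : occ u w = C.ncard := rfl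
  rw [e1, e2, e3]
  set φ : (Fin (u.length + 1) → Fin w.length) → (Fin (u.length + 1) → Fin (w.length + 1)) :=
    fun g i => (g i).succ with hφ
  set ψ : (Fin u.length → Fin w.length) → (Fin (u.length + 1) → Fin (w.length + 1)) :=
    fun g => Fin.cons 0 (fun i => (g i).succ) with hψ
  have hφi : Function.Injective φ := by
    intro g g' h
    funext i
    have := congrFun h i
    simpa [hφ] using this
  have hψi : Function.Injective ψ := by
    intro g g' h
    funext i
    have := congrFun h i.succ
    simpa [hψ] using this
  have key : ∀ (x : Fin (w.length + 1)) (hx : x ≠ 0), (d :: w).get x = w.get (x.pred hx) := by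
    intro x hx
    obtain ⟨y, rfl⟩ := Fin.exists_succ_eq.mpr hx
    simp
  have hAeq : A = φ '' B ∪ (if c = d then ψ '' C else ∅) := by
    ext f
    constructor
    · rintro ⟨hm, hf⟩
      by_cases h0 : f 0 = 0
      · right
        have hcd : c = d := by
          have := hf 0
          rw [h0] at this
          simpa using this.symm
        rw [if_pos hcd]
        have hne : ∀ i : Fin u.length, f i.succ ≠ 0 := by
          intro i h
          have : f 0 < f i.succ := hm (Fin.succ_pos i)
          rw [h] at this
          exact absurd this (by simp)
        refine ⟨fun i => (f i.succ).pred (hne i), ⟨?_, ?_⟩, ?_⟩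
        · intro i j hij
          simp only [Fin.pred_lt_pred_iff]
          exact hm (Fin.succ_lt_succ_iff.mpr hij)
        · intro i
          have := hf i.succ
          rw [key _ (hne i)] at this
          exact this
        · funext i
          refine Fin.cases ?_ (fun j => ?_) i
          · simp [hψ, h0]
          · simp [hψ]
      · left
        have hne : ∀ i : Fin (u.length + 1), f i ≠ 0 := by
          intro i h
          have : f 0 ≤ f i := hm.monotone (Fin.zero_le i)
          rw [h] at this
          exact h0 (le_antisymm this (Fin.zero_le _))
        refine ⟨fun i => (f i).pred (hne i), ⟨?_, ?_⟩, ?_⟩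
        · intro i j hij
          simp only [Fin.pred_lt_pred_iff]
          exact hm hij
        · intro i
          have := hf i
          rw [key _ (hne i)] at this
          exact this
        · funext i
          simp [hφ]
    · rintro (⟨g, ⟨hm, hg⟩, rfl⟩ | h)
      · refine ⟨fun i j hij => ?_, fun i => ?_⟩
        · simpa [hφ] using hm hij
        · simpa [hφ] using hg i
      · by_cases hcd : c = d
        · rw [if_pos hcd] at h
          obtain ⟨g, ⟨hm, hg⟩, rfl⟩ := h
          refine ⟨?_, fun i => ?_⟩
          · intro i j
            refine Fin.cases ?_ (fun i' => ?_) i <;> refine Fin.cases ?_ (fun j' => ?_) j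
            · intro h; exact absurd h (lt_irrefl _)
            · intro _; simp [hψ]
            · intro h; exact absurd h (by simp)
            · intro h
              have : i' < j' := Fin.succ_lt_succ_iff.mp h
              simpa [hψ] using hm this
          · refine Fin.cases ?_ (fun i' => ?_) i
            · simpa [hψ] using hcd.symm
            · simpa [hψ] using hg i'
        · rw [if_neg hcd] at h
          exact h.elim
  rw [hAeq, Set.ncard_union_eq, Set.ncard_image_of_injective _ hφi]
  · by_cases hcd : c = d
    · rw [if_pos hcd, if_pos hcd, Set.ncard_image_of_injective _ hψi]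
    · rw [if_neg hcd, if_neg hcd, Set.ncard_empty]
  · rw [Set.disjoint_left]
    rintro f ⟨g, _, rfl⟩ h
    by_cases hcd : c = d
    · rw [if_pos hcd] at h
      obtain ⟨g', _, h'⟩ := h
      have := congrFun h' 0
      simp only [hψ, hφ, Fin.cons_zero] at this
      exact absurd this.symm (Fin.succ_ne_zero _)
    · rw [if_neg hcd] at h
      exact h.elim

end Pool.Agent.Work.MP_02e323_helper29
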