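import Mathlib
import Pool.Agent.Work.MP_02e323_helper29.Occ

/-!
# Polynomial functions modulo 2 on words
-/

set_option autoImplicit false

open Finset

namespace Pool.Agent.Work.MP_02e323_helper29

variable {α : Type*}

/-- Discrete derivative. -/
def dd (c : α) (f : List α → ZMod 2) : List α → ZMod 2 := fun w => f (c :: w) + f w

/-- Polynomial functions of degree at most `d`. -/
def Poly : ℕ → (List α → ZMod 2) → Prop
  | 0, f => ∀ w, f w = f []
  | d + 1, f => ∀ c, Poly d (dd c f)

lemma z2 (a : ZMod 2) : a + a = 0 := CharTwo.add_self_eq_zero a

lemma poly_smul_add (d : ℕ) : ∀ (z : ZMod 2) (f g : List α → ZMod 2), Poly d f → Poly d g →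
    Poly d (fun w => z * f w + g w) := by
  induction d with
  | zero =>
    intro z f g hf hg w
    simp only [Poly] at hf hg
    simp only [hf w, hg w]
  | succ d ih =>
    intro z f g hf hg c
    have := ih z _ _ (hf c) (hg c)
    have e : dd c (fun w => z * f w + g w) = fun w => z * dd c f w + dd c g w := by
      funext w
      simp only [dd]
      ring
    rw [e]
    exact this

lemma poly_const (d : ℕ) : ∀ (z : ZMod 2), Poly d (fun _ : List α => z) := by
  induction d with
  | zero => intro z w; rfl
  | succ d ih =>
    intro z c
    have e : dd c (fun _ : List α => z) = fun _ => 0 := by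
      funext w
      exact z2 z
    rw [e]
    exact ih 0

lemma poly_add {d : ℕ} {f g : List α → ZMod 2} (hf : Poly d f) (hg : Poly d g) :
    Poly d (fun w => f w + g w) := by
  have := poly_smul_add d 1 f g hf hg
  simpa using this

lemma poly_smul {d : ℕ} (z : ZMod 2) {f : List α → ZMod 2} (hf : Poly d f) :
    Poly d (fun w => z * f w) := by
  have := poly_smul_add d z f (fun _ => 0) hf (poly_const d 0)
  simpa using this

lemma poly_succ {d : ℕ} : ∀ {f : List α → ZMod 2}, Poly d f → Poly (d + 1) f := by
  induction d with
  | zero =>
    intro f hf c w
    simp only [Poly] at hf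
    simp only [dd]
    rw [hf (c :: w), hf w, hf [c]]
  | succ d ih =>
    intro f hf c
    exact ih (hf c)

lemma poly_mono {d e : ℕ} (h : d ≤ e) {f : List α → ZMod 2} (hf : Poly d f) : Poly e f := by
  induction h with
  | refl => exact hf
  | step _ ih => exact poly_succ ih

lemma poly_mul_aux (n : ℕ) : ∀ (d e : ℕ), d + e = n → ∀ (f g : List α → ZMod 2),
    Poly d f → Poly e g → Poly n (fun w => f w * g w) := by
  induction n using Nat.strong_induction_on with
  | _ n ih =>
    intro d e hde f g hf hg
    rcases d with _ | d
    · have e1 : (fun w => f w * g w) = fun w => f [] * g w := by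
        funext w
        rw [show f w = f [] from hf w]
      rw [e1]
      have : e = n := by omega
      subst this
      exact poly_smul _ hg
    · rcases e with _ | e
      · have e1 : (fun w => f w * g w) = fun w => g [] * f w := by
          funext w
          rw [show g w = g [] from hg w, mul_comm]
        rw [e1]
        have : d + 1 = n := by omega
        subst this
        exact poly_smul _ hf
      · obtain ⟨m, rfl⟩ : ∃ m, n = m + 1 := ⟨d + e + 1, by omega⟩
        intro c
        have e1 : dd c (fun w => f w * g w) =
            fun w => (dd c f w * g w + f w * dd c g w) + dd c f w * dd c g w := by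
          funext w
          simp only [dd]
          have h2 : (2 : ZMod 2) = 0 := rfl
          linear_combination (f w * g w - f w * g w - f (c :: w) * g w - f w * g (c :: w)
            - f w * g w) * h2
        rw [e1]
        have h1 := ih m (by omega) d (e + 1) (by omega) _ _ (hf c) hg
        have h2 := ih m (by omega) (d + 1) e (by omega) _ _ hf (hg c)
        have h3 := ih (d + e) (by omega) d e rfl _ _ (hf c) (hg c)
        exact poly_add (poly_add h1 h2) (poly_mono (by omega) h3)

lemma poly_mul {d e : ℕ} {f g : List α → ZMod 2} (hf : Poly d f) (hg : Poly e g) :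
    Poly (d + e) (fun w => f w * g w) := poly_mul_aux _ d e rfl f g hf hg

lemma poly_prod {ι : Type*} (d : ℕ) (f : ι → List α → ZMod 2) (s : Finset ι)
    (h : ∀ i ∈ s, Poly d (f i)) : Poly (s.card * d) (fun w => ∏ i ∈ s, f i w) := by
  classical
  induction s using Finset.induction_on with
  | empty =>
    simp only [Finset.prod_empty]
    exact poly_const _ 1
  | insert a s ha ih =>
    have h1 := ih (fun i hi => h i (Finset.mem_insert_of_mem hi))
    have h2 := h a (Finset.mem_insert_self a s)
    have h3 := poly_mul h2 h1
    have e : (fun w => ∏ i ∈ insert a s, f i w) = fun w => f a w * ∏ i ∈ s, f i w := by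
      funext w
      rw [Finset.prod_insert ha]
    rw [e, Finset.card_insert_of_notMem ha]
    exact poly_mono (by ring_nf; exact le_refl _) h3

/-- Summation over the positions of the letter `c` of the values of `f` on the following
suffix. -/
def integ [DecidableEq α] (c : α) (f : List α → ZMod 2) : List α → ZMod 2
  | [] => 0
  | d :: w => integ c f w + if d = c then f w else 0

lemma dd_integ [DecidableEq α] (c d : α) (f : List α → ZMod 2) :
    dd d (integ c f) = fun w => if d = c then f w else 0 := by
  funext w
  simp only [dd, integ]
  have := z2 (integ c f w)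
  linear_combination this

lemma poly_integ [DecidableEq α] {d : ℕ} {f : List α → ZMod 2} (c : α) (hf : Poly d f) :
    Poly (d + 1) (integ c f) := by
  intro e
  rw [dd_integ]
  by_cases h : e = c
  · simpa [h] using hf
  · simpa [h] using poly_const (α := α) d 0

lemma integ_occ [DecidableEq α] (c : α) (u : List α) :
    integ c (fun w => (occ u w : ZMod 2)) = fun w => (occ (c :: u) w : ZMod 2) := by
  funext w
  induction w with
  | nil => simp [integ, occ_cons_nil]
  | cons d w ih =>
    simp only [integ, ih, occ_cons_cons, Nat.cast_add]
    congr 1
    by_cases h : d = c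
    · subst h; simp
    · rw [if_neg h, if_neg (fun h' => h h'.symm)]
      simp

lemma expand [DecidableEq α] [Fintype α] (f : List α → ZMod 2) (w : List α) :
    f w = f [] + ∑ c, integ c (dd c f) w := by
  induction w with
  | nil => simp [integ]
  | cons d w ih =>
    simp only [integ]
    rw [Finset.sum_add_distrib, ← add_assoc, ← ih]
    simp only [Finset.sum_ite_eq, Finset.mem_univ, if_true, dd]
    have := z2 (f w)
    linear_combination -this

/-- `w` and `w'` have the same subword counts modulo 2 up to length `t`. -/
def SamePar (t : ℕ) (w w' : List α) : Prop :=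
  ∀ u : List α, u.length ≤ t → (occ u w : ZMod 2) = occ u w'

lemma integ_add [DecidableEq α] (c : α) (f g : List α → ZMod 2) (w : List α) :
    integ c (fun w => f w + g w) w = integ c f w + integ c g w := by
  induction w with
  | nil => simp [integ]
  | cons d w ih =>
    simp only [integ, ih]
    split_ifs <;> ring

lemma integ_zero [DecidableEq α] (c : α) (w : List α) :
    integ c (fun _ => 0) w = 0 := by
  induction w with
  | nil => simp [integ]
  | cons d w ih => simp [integ, ih]

lemma integ_smul [DecidableEq α] (c : α) (z : ZMod 2) (f : List α → ZMod 2) (w : List α) :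
    integ c (fun w => z * f w) w = z * integ c f w := by
  induction w with
  | nil => simp [integ]
  | cons d w ih =>
    simp only [integ, ih]
    split_ifs <;> ring

/-- Functions in the span of the subword counts. -/
def SpanFn (d : ℕ) : Submodule (ZMod 2) (List α → ZMod 2) :=
  Submodule.span (ZMod 2) {f | ∃ u : List α, u.length ≤ d ∧ f = fun w => (occ u w : ZMod 2)}

lemma integ_span [DecidableEq α] (c : α) (d : ℕ) (f : List α → ZMod 2) (hf : f ∈ SpanFn d) :
    integ c f ∈ SpanFn (α := α) (d + 1) := by
  unfold SpanFn at hf
  induction hf using Submodule.span_induction with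
  | mem f hf =>
    obtain ⟨u, hu, rfl⟩ := hf
    rw [integ_occ]
    exact Submodule.subset_span ⟨c :: u, by simpa using hu, rfl⟩
  | zero =>
    have : integ c (0 : List α → ZMod 2) = 0 := by
      funext w
      exact integ_zero c w
    rw [this]
    exact Submodule.zero_mem _
  | add f g _ _ hf hg =>
    have : integ c (f + g) = integ c f + integ c g := by
      funext w
      exact integ_add c f g w
    rw [this]
    exact Submodule.add_mem _ hf hg
  | smul z f _ hf =>
    have : integ c (z • f) = z • integ c f := by
      funext w
      exact integ_smul c z f w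
    rw [this]
    exact Submodule.smul_mem _ _ hf

lemma poly_span [DecidableEq α] [Fintype α] (d : ℕ) : ∀ (f : List α → ZMod 2), Poly d f →
    f ∈ SpanFn (α := α) d := by
  induction d with
  | zero =>
    intro f hf
    have e : f = f [] • (fun w : List α => (occ [] w : ZMod 2)) := by
      funext w
      simp only [Pi.smul_apply, occ_nil, Nat.cast_one, smul_eq_mul, mul_one]
      exact hf w
    rw [e]
    exact Submodule.smul_mem _ _ (Submodule.subset_span ⟨[], le_refl _, rfl⟩)
  | succ d ih =>
    intro f hf
    have e : f = f [] • (fun w : List α => (occ [] w : ZMod 2)) + ∑ c, integ c (dd c f) := by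
      funext w
      simp only [Pi.add_apply, Pi.smul_apply, occ_nil, Nat.cast_one, smul_eq_mul, mul_one,
        Finset.sum_apply]
      exact expand f w
    rw [e]
    refine Submodule.add_mem _ (Submodule.smul_mem _ _
      (Submodule.subset_span ⟨[], by simp, rfl⟩)) (Submodule.sum_mem _ fun c _ => ?_)
    exact integ_span c d _ (ih _ (hf c))

/-- Polynomial functions of degree at most `t` only depend on the parities of the subword counts
up to length `t`. -/
lemma poly_eq_of_samePar [DecidableEq α] [Fintype α] {t : ℕ} {w w' : List α}
    (h : SamePar t w w') {f : List α → ZMod 2} (hf : Poly t f) : f w = f w' := by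
  have h1 := poly_span t f hf
  clear hf
  unfold SpanFn at h1
  induction h1 using Submodule.span_induction with
  | mem f hf =>
    obtain ⟨u, hu, rfl⟩ := hf
    exact h u hu
  | zero => rfl
  | add f g _ _ hf hg => simp only [Pi.add_apply, hf, hg]
  | smul z f _ hf => simp only [Pi.smul_apply, hf]

end Pool.Agent.Work.MP_02e323_helper29
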