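import Mathlib
import Pool.Agent.Work.MP_02e323_helper29.Poly

/-!
# The two level state and its indicator polynomials
-/

set_option autoImplicit false

open Finset

namespace Pool.Agent.Work.MP_02e323_helper29

variable {α : Type*}

/-- forward difference modulo 2 -/
def fd (g : ℕ → ZMod 2) : ℕ → ZMod 2 := fun n => g (n + 1) + g n

lemma fd_pow (e : ℕ) : ∀ (g : ℕ → ZMod 2) (n : ℕ), (fd^[2 ^ e]) g n = g (n + 2 ^ e) + g n := by
  induction e with
  | zero => intro g n; simp [fd]
  | succ e ih =>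
    intro g n
    rw [pow_succ, mul_two, Function.iterate_add_apply, ih, ih, ih]
    have h := z2 (g (n + 2 ^ e))
    rw [show n + 2 ^ e + 2 ^ e = n + (2 ^ e + 2 ^ e) by ring]
    linear_combination h

lemma poly_len_aux (d : ℕ) : ∀ (g : ℕ → ZMod 2), (∀ n, (fd^[d + 1]) g n = 0) →
    Poly d (fun w : List α => g w.length) := by
  induction d with
  | zero =>
    intro g hg w
    have : ∀ n, g n = g 0 := by
      intro n
      induction n with
      | zero => rfl
      | succ n ih =>
        have h := hg n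
        simp only [zero_add, Function.iterate_one, fd] at h
        have h2 := z2 (g n)
        rw [← ih]
        linear_combination h - h2
    simpa using this w.length
  | succ d ih =>
    intro g hg c
    exact ih (fd g) (fun n => by
      have := hg n
      rwa [Function.iterate_succ_apply] at this)

lemma poly_len (e : ℕ) (g : ℕ → ZMod 2) (hg : ∀ n, g (n + 2 ^ e) = g n) :
    Poly (2 ^ e - 1) (fun w : List α => g w.length) := by
  apply poly_len_aux
  intro n
  rw [Nat.sub_add_cancel Nat.one_le_two_pow, fd_pow, hg]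
  exact z2 _

variable [DecidableEq α]

/-- First level state: a set of lamps in `{1, …, l}`. -/
def Y (b : α) (q l : ℕ) : List α → Finset ℕ
  | [] => ∅
  | c :: w => if c = b ∧ 1 ≤ w.length % q ∧ w.length % q ≤ l then
      symmDiff (Y b q l w) {w.length % q} else Y b q l w

/-- Second level state: a set of first level states. -/
def Lam (b : α) (q l : ℕ) : List α → Finset (Finset ℕ)
  | [] => ∅
  | c :: w => if c = b ∧ w.length % q = 0 then
      symmDiff (Lam b q l w) {Y b q l w} else Lam b q l w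

/-- The full state. -/
def St (b : α) (q l M : ℕ) (w : List α) : ℕ × Finset (Finset ℕ) := (w.length % M, Lam b q l w)

lemma Y_subset (b : α) (q l : ℕ) (w : List α) : Y b q l w ⊆ Icc 1 l := by
  induction w with
  | nil => simp [Y]
  | cons c w ih =>
    simp only [Y]
    split_ifs with h
    · intro x hx
      rw [Finset.mem_symmDiff] at hx
      rcases hx with ⟨h1, _⟩ | ⟨h1, _⟩
      · exact ih h1
      · rw [Finset.mem_singleton] at h1
        subst h1
        exact Finset.mem_Icc.mpr h.2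
    · exact ih

lemma Lam_subset (b : α) (q l : ℕ) (w : List α) : Lam b q l w ⊆ (Icc 1 l).powerset := by
  induction w with
  | nil => simp [Lam]
  | cons c w ih =>
    simp only [Lam]
    split_ifs with h
    · intro x hx
      rw [Finset.mem_symmDiff] at hx
      rcases hx with ⟨h1, _⟩ | ⟨h1, _⟩
      · exact ih h1
      · rw [Finset.mem_singleton] at h1
        subst h1
        exact Finset.mem_powerset.mpr (Y_subset b q l w)
    · exact ih

omit [DecidableEq α] in
/-- indicator in `ZMod 2` -/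
noncomputable def ind (p : Prop) : ZMod 2 := @ite _ p (Classical.propDecidable p) 1 0

lemma ind_pos {p : Prop} (h : p) : ind p = 1 := if_pos h

lemma ind_neg {p : Prop} (h : ¬ p) : ind p = 0 := if_neg h

lemma ind_symmDiff {ι : Type*} [DecidableEq ι] (s : Finset ι) (a x : ι) :
    ind (a ∈ symmDiff s {x}) + ind (a ∈ s) = ind (x = a) := by
  rw [Finset.mem_symmDiff, Finset.mem_singleton]
  by_cases h1 : a ∈ s <;> by_cases h2 : a = x
  · rw [ind_neg (by tauto), ind_pos h1, ind_pos h2.symm]; rfl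
  · rw [ind_pos (by tauto), ind_pos h1, ind_neg (fun h => h2 h.symm)]; rfl
  · rw [ind_pos (by tauto), ind_neg h1, ind_pos h2.symm]; rfl
  · rw [ind_neg (by tauto), ind_neg h1, ind_neg (fun h => h2 h.symm)]; rfl

lemma poly_memY (b : α) (e l a : ℕ) (ha : a ∈ Icc 1 l) :
    Poly (2 ^ e) (fun w => ind (a ∈ Y b (2 ^ e) l w)) := by
  have hpos : 0 < 2 ^ e := Nat.two_pow_pos e
  have h1 : Poly (2 ^ e - 1) (fun w : List α => ind (w.length % 2 ^ e = a)) := by
    refine poly_len e (fun n => ind (n % 2 ^ e = a)) (fun n => ?_)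
    simp
  have h2 : Poly (2 ^ e - 1 + 1) (fun w => ind (a ∈ Y b (2 ^ e) l w)) := by
    intro c
    rw [Finset.mem_Icc] at ha
    by_cases hc : c = b
    · have e1 : dd c (fun w => ind (a ∈ Y b (2 ^ e) l w)) =
          fun w : List α => ind (w.length % 2 ^ e = a) := by
        funext w
        simp only [dd, Y]
        by_cases h : 1 ≤ w.length % 2 ^ e ∧ w.length % 2 ^ e ≤ l
        · rw [if_pos ⟨hc, h⟩]
          exact ind_symmDiff _ _ _
        · rw [if_neg (fun h' => h h'.2), z2]
          have : ¬ w.length % 2 ^ e = a := by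
            rintro rfl
            exact h ha
          rw [ind_neg this]
      rw [e1]
      exact h1
    · have e1 : dd c (fun w => ind (a ∈ Y b (2 ^ e) l w)) = fun w : List α => 0 := by
        funext w
        simp only [dd, Y]
        rw [if_neg (fun h' => hc h'.1), z2]
      rw [e1]
      exact poly_const _ 0
  rwa [Nat.sub_add_cancel Nat.one_le_two_pow] at h2

lemma ind_prod {ι : Type*} [DecidableEq ι] (T s y : Finset ι) (hs : s ⊆ T) (hy : y ⊆ T) :
    ∏ a ∈ T, (1 + (ind (a ∈ s) + ind (a ∈ y))) = ind (s = y) := by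
  by_cases h : s = y
  · subst h
    rw [ind_pos rfl]
    apply Finset.prod_eq_one
    intro a _
    rw [z2]
    rfl
  · rw [ind_neg h]
    have : ∃ a ∈ T, ¬ (a ∈ s ↔ a ∈ y) := by
      by_contra hcon
      push Not at hcon
      apply h
      ext a
      constructor
      · intro ha; exact (hcon a (hs ha)).mp ha
      · intro ha; exact (hcon a (hy ha)).mpr ha
    obtain ⟨a, haT, ha⟩ := this
    apply Finset.prod_eq_zero haT
    by_cases h1 : a ∈ s <;> by_cases h2 : a ∈ y
    · exact absurd (by simp [h1, h2]) ha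
    · rw [ind_pos h1, ind_neg h2]; rfl
    · rw [ind_neg h1, ind_pos h2]; rfl
    · exact absurd (by simp [h1, h2]) ha

lemma poly_indY (b : α) (e l : ℕ) (y : Finset ℕ) (hy : y ⊆ Icc 1 l) :
    Poly (l * 2 ^ e) (fun w => ind (Y b (2 ^ e) l w = y)) := by
  have h := poly_prod (2 ^ e) (fun a w => 1 + (ind (a ∈ Y b (2 ^ e) l w) + ind (a ∈ y)))
    (Icc 1 l) (fun a ha => poly_add (poly_const _ 1) (poly_add (poly_memY b e l a ha)
      (poly_const _ _)))
  have e1 : (fun w => ∏ a ∈ Icc 1 l, (1 + (ind (a ∈ Y b (2 ^ e) l w) + ind (a ∈ y)))) =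
      fun w => ind (Y b (2 ^ e) l w = y) := by
    funext w
    exact ind_prod _ _ _ (Y_subset b _ l w) hy
  rw [e1] at h
  simpa using h

lemma poly_memLam (b : α) (e l : ℕ) (y : Finset ℕ) (hy : y ⊆ Icc 1 l) :
    Poly (2 ^ e * (l + 1)) (fun w => ind (y ∈ Lam b (2 ^ e) l w)) := by
  have h1 : Poly (2 ^ e - 1) (fun w : List α => ind (w.length % 2 ^ e = 0)) := by
    refine poly_len e (fun n => ind (n % 2 ^ e = 0)) (fun n => ?_)
    simp
  have h3 := poly_mul h1 (poly_indY b e l y hy)
  have h2 : Poly (2 ^ e - 1 + l * 2 ^ e + 1) (fun w => ind (y ∈ Lam b (2 ^ e) l w)) := by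
    intro c
    by_cases hc : c = b
    · have e1 : dd c (fun w => ind (y ∈ Lam b (2 ^ e) l w)) =
          fun w : List α => ind (w.length % 2 ^ e = 0) * ind (Y b (2 ^ e) l w = y) := by
        funext w
        simp only [dd, Lam]
        by_cases h : w.length % 2 ^ e = 0
        · rw [if_pos ⟨hc, h⟩, ind_symmDiff, ind_pos h, one_mul]
        · rw [if_neg (fun h' => h h'.2), z2, ind_neg h, zero_mul]
      rw [e1]
      exact h3
    · have e1 : dd c (fun w => ind (y ∈ Lam b (2 ^ e) l w)) = fun w : List α => 0 := by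
        funext w
        simp only [dd, Lam]
        rw [if_neg (fun h' => hc h'.1), z2]
      rw [e1]
      exact poly_const _ 0
  have e2 : 2 ^ e - 1 + l * 2 ^ e + 1 = 2 ^ e * (l + 1) := by
    have : 1 ≤ 2 ^ e := Nat.one_le_two_pow
    have h5 : 2 ^ e - 1 + 1 = 2 ^ e := Nat.sub_add_cancel this
    calc 2 ^ e - 1 + l * 2 ^ e + 1 = (2 ^ e - 1 + 1) + l * 2 ^ e := by ring
      _ = 2 ^ e * (l + 1) := by rw [h5]; ring
  rwa [e2] at h2

lemma poly_indLam (b : α) (e l : ℕ) (v : Finset (Finset ℕ)) (hv : v ⊆ (Icc 1 l).powerset) :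
    Poly (2 ^ l * (2 ^ e * (l + 1))) (fun w => ind (Lam b (2 ^ e) l w = v)) := by
  have h := poly_prod (2 ^ e * (l + 1))
    (fun a w => 1 + (ind (a ∈ Lam b (2 ^ e) l w) + ind (a ∈ v)))
    (Icc 1 l).powerset (fun a ha => poly_add (poly_const _ 1) (poly_add
      (poly_memLam b e l a (Finset.mem_powerset.mp ha)) (poly_const _ _)))
  have e1 : (fun w => ∏ a ∈ (Icc 1 l).powerset,
      (1 + (ind (a ∈ Lam b (2 ^ e) l w) + ind (a ∈ v)))) =
      fun w => ind (Lam b (2 ^ e) l w = v) := by
    funext w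
    exact ind_prod _ _ _ (Lam_subset b _ l w) hv
  rw [e1] at h
  simpa using h

lemma poly_indSt (b : α) (e l E : ℕ) (s : ℕ × Finset (Finset ℕ))
    (hv : s.2 ⊆ (Icc 1 l).powerset) :
    Poly (2 ^ E - 1 + 2 ^ l * (2 ^ e * (l + 1)))
      (fun w => ind (St b (2 ^ e) l (2 ^ E) w = s)) := by
  have h1 : Poly (2 ^ E - 1) (fun w : List α => ind (w.length % 2 ^ E = s.1)) := by
    refine poly_len E (fun n => ind (n % 2 ^ E = s.1)) (fun n => ?_)
    simp
  have h3 := poly_mul h1 (poly_indLam b e l s.2 hv)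
  have e1 : (fun w => ind (St b (2 ^ e) l (2 ^ E) w = s)) =
      fun w : List α => ind (w.length % 2 ^ E = s.1) * ind (Lam b (2 ^ e) l w = s.2) := by
    funext w
    unfold St
    rw [Prod.ext_iff]
    by_cases h1 : w.length % 2 ^ E = s.1 <;> by_cases h2 : Lam b (2 ^ e) l w = s.2
    · rw [ind_pos ⟨h1, h2⟩, ind_pos h1, ind_pos h2]; rfl
    · rw [ind_neg (fun h => h2 h.2), ind_pos h1, ind_neg h2]; rfl
    · rw [ind_neg (fun h => h1 h.1), ind_neg h1, zero_mul]
    · rw [ind_neg (fun h => h1 h.1), ind_neg h1, zero_mul]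
  rw [e1]
  exact h3

/-- The flows are polynomial functions of degree at most `2 ^ E + 2 ^ l * (2 ^ e * (l + 1))`. -/
lemma poly_flow (b : α) (e l E : ℕ) (c : α) (s : ℕ × Finset (Finset ℕ))
    (hv : s.2 ⊆ (Icc 1 l).powerset) :
    Poly (2 ^ E + 2 ^ l * (2 ^ e * (l + 1)))
      (integ c (fun w => ind (St b (2 ^ e) l (2 ^ E) w = s))) := by
  have h := poly_integ c (poly_indSt b e l E s hv)
  have e2 : 2 ^ E - 1 + 2 ^ l * (2 ^ e * (l + 1)) + 1 = 2 ^ E + 2 ^ l * (2 ^ e * (l + 1)) := by
    have : 1 ≤ 2 ^ E := Nat.one_le_two_pow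
    omega
  rwa [e2] at h

end Pool.Agent.Work.MP_02e323_helper29
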