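import Mathlib
import Pool.Agent.Work.MP_02e323_helper29.State

/-!
# Self-avoiding state sequences are determined by their flows modulo 2
-/

set_option autoImplicit false

open Finset

namespace Pool.Agent.Work.MP_02e323_helper29

variable {α : Type*} {σ : Type*}

/-- The list of pairs (letter, state of the following suffix). -/
def edges (S : List α → σ) : List α → List (α × σ)
  | [] => []
  | c :: w => (c, S w) :: edges S w

/-- All proper suffixes have different states. -/
def SelfAv (S : List α → σ) (w : List α) : Prop := ((edges S w).map Prod.snd).Nodup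

lemma edges_length (S : List α → σ) (w : List α) : (edges S w).length = w.length := by
  induction w with
  | nil => rfl
  | cons c w ih => simp [edges, ih]

lemma edges_append (S : List α → σ) (xs v : List α) :
    ∃ L, edges S (xs ++ v) = L ++ edges S v := by
  induction xs with
  | nil => exact ⟨[], rfl⟩
  | cons x xs ih =>
    obtain ⟨L, hL⟩ := ih
    exact ⟨(x, S (xs ++ v)) :: L, by simp [edges, hL]⟩

lemma mem_edges {S : List α → σ} {w : List α} {c : α} {s : σ} :
    (c, s) ∈ edges S w ↔ ∃ xs v, w = xs ++ c :: v ∧ S v = s := by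
  induction w with
  | nil => simp [edges]
  | cons d w ih =>
    simp only [edges, List.mem_cons, Prod.mk.injEq]
    constructor
    · rintro (⟨h1, h2⟩ | h)
      · exact ⟨[], w, by simp [h1], h2.symm⟩
      · obtain ⟨xs, v, h1, h2⟩ := ih.mp h
        exact ⟨d :: xs, v, by simp [h1], h2⟩
    · rintro ⟨xs, v, h1, h2⟩
      rcases xs with _ | ⟨x, xs⟩
      · left
        simp only [List.nil_append, List.cons.injEq] at h1
        obtain ⟨h3, h4⟩ := h1
        subst h4
        exact ⟨h3.symm, h2.symm⟩
      · right
        simp only [List.cons_append, List.cons.injEq] at h1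
        exact ih.mpr ⟨xs, v, h1.2, h2⟩

lemma SelfAv.suffix {S : List α → σ} {xs v : List α} (h : SelfAv S (xs ++ v)) : SelfAv S v := by
  obtain ⟨L, hL⟩ := edges_append S xs v
  unfold SelfAv at h ⊢
  rw [hL, List.map_append] at h
  exact (List.nodup_append.mp h).2.1

lemma SelfAv.aux {S : List α → σ} {w xs xs' v v' : List α} {c c' : α} (h : SelfAv S w)
    (h1 : w = xs ++ c :: v) (h2 : w = xs' ++ c' :: v') (hs : S v = S v')
    (hlt : v.length < v'.length) : False := by
  have e : xs ++ (c :: v) = (xs' ++ [c']) ++ v' := by
    rw [← h1, h2]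
    simp
  have hsuf : (c :: v) <:+ v' := by
    apply List.suffix_of_suffix_length_le (l₃ := w)
    · exact ⟨xs, h1.symm⟩
    · exact ⟨xs' ++ [c'], by rw [h2]; simp⟩
    · simpa using hlt
  obtain ⟨ys, hys⟩ := hsuf
  have h3 : SelfAv S (c' :: v') := by
    rw [h2] at h
    exact h.suffix
  unfold SelfAv at h3
  simp only [edges, List.map_cons, List.nodup_cons] at h3
  apply h3.1
  rw [← hs]
  exact List.mem_map.mpr ⟨(c, S v), mem_edges.mpr ⟨ys, v, hys.symm, rfl⟩, rfl⟩

lemma SelfAv.uniq {S : List α → σ} {w xs xs' v v' : List α} {c c' : α} (h : SelfAv S w)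
    (h1 : w = xs ++ c :: v) (h2 : w = xs' ++ c' :: v') (hs : S v = S v') : v = v' := by
  rcases lt_trichotomy v.length v'.length with hl | hl | hl
  · exact (h.aux h1 h2 hs hl).elim
  · have e : (xs ++ [c]) ++ v = (xs' ++ [c']) ++ v' := by
      rw [List.append_assoc, List.append_assoc]
      simp only [List.singleton_append]
      rw [← h1, ← h2]
    exact (List.append_inj' e hl).2
  · exact (h.aux h2 h1 hs.symm hl).elim

/-- number of visits to an edge, modulo 2 -/
def cnt [DecidableEq α] [DecidableEq σ] (S : List α → σ) (w : List α) (p : α × σ) : ZMod 2 :=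
  ((edges S w).count p : ZMod 2)

lemma flow_eq [DecidableEq α] [DecidableEq σ] (S : List α → σ) (c : α) (s : σ) (w : List α) :
    integ c (fun w => ind (S w = s)) w = cnt S w (c, s) := by
  unfold cnt
  induction w with
  | nil => simp [integ, edges]
  | cons d w ih =>
    simp only [integ, ih, edges, List.count_cons, Nat.cast_add]
    congr 1
    by_cases h1 : d = c <;> by_cases h2 : S w = s
    · simp [h1, h2, ind_pos]
    · simp [h1, h2, ind_neg]
    · simp [h1]
    · simp [h1]

lemma det_aux {S : List α → σ} {w w' : List α} (h : SelfAv S w)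
    (hsub : ∀ e ∈ edges S w', e ∈ edges S w) (n : ℕ) : ∀ (xs xs' v : List α), xs.length = n →
    xs'.length = n → w = xs ++ v → w' = xs' ++ v → xs' = xs := by
  induction n with
  | zero =>
    intro xs xs' v h1 h2 _ _
    rw [List.length_eq_zero_iff.mp h1, List.length_eq_zero_iff.mp h2]
  | succ n ih =>
    intro xs xs' v h1 h2 h3 h4
    obtain ⟨ys, c, rfl⟩ : ∃ ys c, xs = ys ++ [c] := by
      rcases List.eq_nil_or_concat xs with h | ⟨ys, c, h⟩
      · rw [h] at h1; simp at h1
      · exact ⟨ys, c, by rw [h, List.concat_eq_append]⟩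
    obtain ⟨ys', c', rfl⟩ : ∃ ys' c', xs' = ys' ++ [c'] := by
      rcases List.eq_nil_or_concat xs' with h | ⟨ys, c, h⟩
      · rw [h] at h2; simp at h2
      · exact ⟨ys, c, by rw [h, List.concat_eq_append]⟩
    simp only [List.append_assoc, List.singleton_append] at h3 h4
    have hm : (c', S v) ∈ edges S w := hsub _ (mem_edges.mpr ⟨ys', v, h4, rfl⟩)
    obtain ⟨zs, v₁, h5, h6⟩ := mem_edges.mp hm
    have h7 : v₁ = v := h.uniq h5 h3 h6
    subst h7
    have e : zs ++ c' :: v₁ = ys ++ c :: v₁ := by rw [← h5, h3]
    have h8 := (List.append_inj' e (by simp)).2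
    simp only [List.cons.injEq, and_true] at h8
    subst h8
    have := ih ys ys' (c' :: v₁) (by simpa using h1) (by simpa using h2) h3 h4
    rw [this]

lemma det_length [DecidableEq α] [DecidableEq σ] {S : List α → σ} {w w' : List α}
    (h : SelfAv S w)
    (hc : ∀ e ∈ edges S w, cnt S w e = cnt S w' e) :
    (edges S w).Subperm (edges S w') := by
  unfold cnt at hc
  have hn : (edges S w).Nodup := List.Nodup.of_map _ h
  apply List.subperm_of_subset hn
  intro e he
  have h1 := hc e he
  rw [List.count_eq_one_of_mem hn he] at h1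
  by_contra hcon
  rw [List.count_eq_zero_of_not_mem hcon] at h1
  exact absurd h1 (by decide)

lemma det_main [DecidableEq α] [DecidableEq σ] {S : List α → σ} {w w' : List α}
    (h : SelfAv S w)
    (hc : ∀ e ∈ edges S w, cnt S w e = cnt S w' e)
    (hl : w'.length ≤ w.length) : w' = w := by
  have h1 := det_length h hc
  have h2 : (edges S w).Perm (edges S w') := by
    apply h1.perm_of_length_le
    rw [edges_length, edges_length]
    exact hl
  have h3 : w'.length = w.length := by
    have := h2.length_eq
    rw [edges_length, edges_length] at this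
    exact this.symm
  exact det_aux h (fun e he => h2.mem_iff.mpr he) w.length w w' [] rfl h3 (by simp) (by simp)

end Pool.Agent.Work.MP_02e323_helper29
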