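import Mathlib
import Pool.Agent.Work.MP_02e323_helper29.Det

/-!
# Most words over two letters have self-avoiding state sequences
-/

set_option autoImplicit false

open Finset

namespace Pool.Agent.Work.MP_02e323_helper29

variable {α : Type*}

/-- Sum of `g` over all words of length `n` over `{a, b}`. -/
def bsum (a b : α) : ℕ → (List α → ℝ) → ℝ
  | 0, g => g []
  | n + 1, g => bsum a b n (fun v => g (a :: v) + g (b :: v))

lemma bsum_le (a b : α) (n : ℕ) : ∀ (g g' : List α → ℝ),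
    (∀ v, v.length = n → g v ≤ g' v) → bsum a b n g ≤ bsum a b n g' := by
  induction n with
  | zero => intro g g' h; exact h [] rfl
  | succ n ih =>
    intro g g' h
    refine ih _ _ (fun v hv => ?_)
    exact add_le_add (h _ (by simp [hv])) (h _ (by simp [hv]))

lemma bsum_congr (a b : α) (n : ℕ) (g g' : List α → ℝ)
    (h : ∀ v, v.length = n → g v = g' v) : bsum a b n g = bsum a b n g' :=
  le_antisymm (bsum_le a b n g g' fun v hv => (h v hv).le)
    (bsum_le a b n g' g fun v hv => (h v hv).ge)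

lemma bsum_add (a b : α) (n : ℕ) : ∀ (g g' : List α → ℝ),
    bsum a b n (fun v => g v + g' v) = bsum a b n g + bsum a b n g' := by
  induction n with
  | zero => intro g g'; rfl
  | succ n ih =>
    intro g g'
    simp only [bsum]
    rw [← ih]
    congr 1
    funext v
    ring

lemma bsum_mul (a b : α) (n : ℕ) : ∀ (r : ℝ) (g : List α → ℝ),
    bsum a b n (fun v => r * g v) = r * bsum a b n g := by
  induction n with
  | zero => intro r g; rfl
  | succ n ih =>
    intro r g
    simp only [bsum]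
    rw [← ih]
    congr 1
    funext v
    ring

lemma bsum_zero (a b : α) (n : ℕ) : bsum a b n (fun _ => (0 : ℝ)) = 0 := by
  have := bsum_mul a b n 0 (fun _ => 0)
  simpa using this

lemma bsum_const (a b : α) (n : ℕ) : ∀ (r : ℝ), bsum a b n (fun _ => r) = 2 ^ n * r := by
  induction n with
  | zero => intro r; simp [bsum]
  | succ n ih =>
    intro r
    simp only [bsum]
    rw [ih]
    ring

lemma bsum_sum {ι : Type*} (a b : α) (n : ℕ) (s : Finset ι) (g : ι → List α → ℝ) :
    bsum a b n (fun v => ∑ i ∈ s, g i v) = ∑ i ∈ s, bsum a b n (g i) := by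
  classical
  induction s using Finset.induction_on with
  | empty => simp [bsum_zero]
  | insert i s hi ih =>
    rw [Finset.sum_insert hi, ← ih, ← bsum_add]
    congr 1
    funext v
    rw [Finset.sum_insert hi]

/-- suffix of length `i` -/
def sfx (i : ℕ) (v : List α) : List α := v.drop (v.length - i)

lemma sfx_cons {i : ℕ} {v : List α} (h : i ≤ v.length) (c : α) : sfx i (c :: v) = sfx i v := by
  unfold sfx
  rw [List.length_cons, show v.length + 1 - i = (v.length - i) + 1 by omega, List.drop_succ_cons]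

lemma sfx_self (v : List α) : sfx v.length v = v := by
  unfold sfx
  simp

lemma sfx_length {i : ℕ} {v : List α} (h : i ≤ v.length) : (sfx i v).length = i := by
  unfold sfx
  rw [List.length_drop]
  omega

lemma sfx_sfx {i j : ℕ} {v : List α} (h : i ≤ j) (hj : j ≤ v.length) :
    sfx i (sfx j v) = sfx i v := by
  have h1 := sfx_length hj
  unfold sfx at h1 ⊢
  rw [h1, List.drop_drop]
  congr 1
  omega

lemma sfx_append (xs v : List α) : sfx v.length (xs ++ v) = v := by
  unfold sfx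
  simp

lemma bsum_sfx (a b : α) (i : ℕ) (g : List α → ℝ) (j : ℕ) :
    bsum a b (i + j) (fun v => g (sfx i v)) = 2 ^ j * bsum a b i g := by
  induction j with
  | zero =>
    simp only [add_zero, pow_zero, one_mul]
    refine bsum_congr _ _ _ _ _ (fun v hv => ?_)
    subst hv
    rw [sfx_self]
  | succ j ih =>
    rw [← add_assoc]
    simp only [bsum]
    have : bsum a b (i + j) (fun v => g (sfx i (a :: v)) + g (sfx i (b :: v))) =
        bsum a b (i + j) (fun v => 2 * g (sfx i v)) := by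
      refine bsum_congr _ _ _ _ _ (fun v hv => ?_)
      rw [sfx_cons (by omega), sfx_cons (by omega)]
      ring
    rw [this, bsum_mul, ih]
    ring

variable [DecidableEq α]

/-- character of the difference of the second level states of `v` and `v0` -/
noncomputable def chi (b : α) (q l : ℕ) (S : Finset (Finset ℕ)) (v v0 : List α) : ℝ :=
  ∏ y ∈ S, (if (y ∈ Lam b q l v ↔ y ∈ Lam b q l v0) then 1 else -1)

lemma chi_self (b : α) (q l : ℕ) (S : Finset (Finset ℕ)) (v : List α) : chi b q l S v v = 1 := by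
  unfold chi
  simp

lemma chi_cons_neg (b : α) (q l : ℕ) (S : Finset (Finset ℕ)) (v v0 : List α) (c : α)
    (h : ¬ (c = b ∧ v.length % q = 0)) : chi b q l S (c :: v) v0 = chi b q l S v v0 := by
  unfold chi
  have : Lam b q l (c :: v) = Lam b q l v := by
    simp only [Lam]
    rw [if_neg h]
  rw [this]

lemma chi_cons_pos (b : α) (q l : ℕ) (S : Finset (Finset ℕ)) (v v0 : List α) (c : α)
    (h : c = b ∧ v.length % q = 0) :
    chi b q l S (c :: v) v0 = chi b q l S v v0 * (if Y b q l v ∈ S then -1 else 1) := by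
  unfold chi
  have h1 : Lam b q l (c :: v) = symmDiff (Lam b q l v) {Y b q l v} := by
    simp only [Lam]
    rw [if_pos h]
  have h2 : (if Y b q l v ∈ S then (-1 : ℝ) else 1) =
      ∏ y ∈ S, (if y = Y b q l v then (-1 : ℝ) else 1) := by
    rw [Finset.prod_ite_eq']
  rw [h2, ← Finset.prod_mul_distrib, h1]
  refine Finset.prod_congr rfl (fun y _ => ?_)
  have h3 : (y ∈ symmDiff (Lam b q l v) {Y b q l v}) ↔
      ((y ∈ Lam b q l v ∧ ¬ y = Y b q l v) ∨ (y = Y b q l v ∧ ¬ y ∈ Lam b q l v)) := by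
    rw [Finset.mem_symmDiff, Finset.mem_singleton]
  by_cases h4 : y = Y b q l v
  · rw [if_pos h4]
    by_cases h5 : y ∈ Lam b q l v <;> by_cases h6 : y ∈ Lam b q l v0
    · rw [if_neg (by rw [h3]; tauto), if_pos (by tauto)]; norm_num
    · rw [if_pos (by rw [h3]; tauto), if_neg (by tauto)]; norm_num
    · rw [if_pos (by rw [h3]; tauto), if_neg (by tauto)]; norm_num
    · rw [if_neg (by rw [h3]; tauto), if_pos (by tauto)]; norm_num
  · rw [if_neg h4, mul_one]
    by_cases h5 : y ∈ Lam b q l v <;> by_cases h6 : y ∈ Lam b q l v0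
    · rw [if_pos (by rw [h3]; tauto), if_pos (by tauto)]
    · rw [if_neg (by rw [h3]; tauto), if_neg (by tauto)]
    · rw [if_neg (by rw [h3]; tauto), if_neg (by tauto)]
    · rw [if_pos (by rw [h3]; tauto), if_pos (by tauto)]

/-- one step transfer operator -/
noncomputable def Kop (q l : ℕ) (S : Finset (Finset ℕ)) (t : ℕ) (g : Finset ℕ → ℝ) :
    Finset ℕ → ℝ := fun y =>
  if t % q = 0 then (if y ∈ S then 0 else 2 * g y)
  else if t % q ≤ l then g y + g (symmDiff y {t % q}) else 2 * g y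

/-- iterated transfer operator -/
noncomputable def KK (q l : ℕ) (S : Finset (Finset ℕ)) (i : ℕ) :
    ℕ → (Finset ℕ → ℝ) → Finset ℕ → ℝ
  | 0, g => g
  | m + 1, g => KK q l S i m (Kop q l S (i + m) g)

lemma bsum_step (a b : α) (hab : a ≠ b) (q l : ℕ) (S : Finset (Finset ℕ)) (i t : ℕ) (hi : i ≤ t)
    (g : Finset ℕ → ℝ) :
    bsum a b (t + 1) (fun v => chi b q l S v (sfx i v) * g (Y b q l v)) =
      bsum a b t (fun v => chi b q l S v (sfx i v) * Kop q l S t g (Y b q l v)) := by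
  simp only [bsum]
  refine bsum_congr _ _ _ _ _ (fun v hv => ?_)
  have hi' : i ≤ v.length := by omega
  rw [sfx_cons hi', sfx_cons hi', chi_cons_neg b q l S v _ a (fun h => hab h.1)]
  have hYa : Y b q l (a :: v) = Y b q l v := by
    simp only [Y]
    rw [if_neg (fun h => hab h.1)]
  rw [hYa]
  unfold Kop
  subst hv
  by_cases h0 : v.length % q = 0
  · rw [if_pos h0, chi_cons_pos b q l S v _ b ⟨rfl, h0⟩]
    have hYb : Y b q l (b :: v) = Y b q l v := by
      simp only [Y]
      rw [if_neg (fun h => by omega)]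
    rw [hYb]
    split_ifs <;> ring
  · rw [if_neg h0, chi_cons_neg b q l S v _ b (fun h => h0 h.2)]
    by_cases h1 : v.length % q ≤ l
    · have hYb : Y b q l (b :: v) = symmDiff (Y b q l v) {v.length % q} := by
        simp only [Y]
        rw [if_pos ⟨trivial, by omega, h1⟩]
      rw [hYb, if_pos h1]
      ring
    · have hYb : Y b q l (b :: v) = Y b q l v := by
        simp only [Y]
        rw [if_neg (fun h => h1 h.2.2)]
      rw [hYb, if_neg h1]
      ring

lemma bsum_KK (a b : α) (hab : a ≠ b) (q l : ℕ) (S : Finset (Finset ℕ)) (i m : ℕ) :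
    ∀ (g : Finset ℕ → ℝ),
    bsum a b (i + m) (fun v => chi b q l S v (sfx i v) * g (Y b q l v)) =
      bsum a b i (fun v => KK q l S i m g (Y b q l v)) := by
  induction m with
  | zero =>
    intro g
    simp only [add_zero, KK]
    refine bsum_congr _ _ _ _ _ (fun v hv => ?_)
    subst hv
    rw [sfx_self, chi_self, one_mul]
  | succ m ih =>
    intro g
    rw [← add_assoc, bsum_step a b hab q l S i (i + m) (Nat.le_add_right _ _), ih]
    rfl

lemma KK_add (q l : ℕ) (S : Finset (Finset ℕ)) (i m m' : ℕ) : ∀ (g : Finset ℕ → ℝ),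
    KK q l S i (m + m') g = KK q l S i m (KK q l S (i + m) m' g) := by
  induction m' with
  | zero => intro g; rfl
  | succ m' ih =>
    intro g
    rw [← add_assoc]
    simp only [KK]
    rw [ih, add_assoc]

lemma symm_mem {l : ℕ} {y : Finset ℕ} (hy : y ∈ (Icc 1 l).powerset) {Z : Finset ℕ}
    (hZ : Z ⊆ Icc 1 l) : symmDiff y Z ∈ (Icc 1 l).powerset := by
  rw [Finset.mem_powerset] at hy ⊢
  intro x hx
  rw [Finset.mem_symmDiff] at hx
  rcases hx with h | h
  · exact hy h.1
  · exact hZ h.1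

lemma Kop_bound (q l : ℕ) (S : Finset (Finset ℕ)) (t : ℕ) (g : Finset ℕ → ℝ) (B : ℝ) (hB : 0 ≤ B)
    (h : ∀ y ∈ (Icc 1 l).powerset, 0 ≤ g y ∧ g y ≤ B) :
    ∀ y ∈ (Icc 1 l).powerset, 0 ≤ Kop q l S t g y ∧ Kop q l S t g y ≤ 2 * B := by
  intro y hy
  have h1 := h y hy
  unfold Kop
  by_cases h0 : t % q = 0
  · rw [if_pos h0]
    split_ifs
    · exact ⟨le_refl _, by linarith⟩
    · exact ⟨by linarith, by linarith⟩
  · rw [if_neg h0]
    by_cases h2 : t % q ≤ l
    · rw [if_pos h2]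
      have h3 := h _ (symm_mem hy (Z := {t % q}) (by
        rw [Finset.singleton_subset_iff, Finset.mem_Icc]
        omega))
      exact ⟨by linarith, by linarith⟩
    · rw [if_neg h2]
      exact ⟨by linarith, by linarith⟩

lemma KK_bound (q l : ℕ) (S : Finset (Finset ℕ)) (i m : ℕ) : ∀ (g : Finset ℕ → ℝ) (B : ℝ),
    0 ≤ B → (∀ y ∈ (Icc 1 l).powerset, 0 ≤ g y ∧ g y ≤ B) →
    ∀ y ∈ (Icc 1 l).powerset, 0 ≤ KK q l S i m g y ∧ KK q l S i m g y ≤ 2 ^ m * B := by
  induction m with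
  | zero =>
    intro g B _ h y hy
    simpa [KK] using h y hy
  | succ m ih =>
    intro g B hB h y hy
    have := ih _ (2 * B) (by linarith) (Kop_bound q l S (i + m) g B hB h) y hy
    simp only [KK]
    rw [pow_succ]
    constructor
    · exact this.1
    · calc _ ≤ 2 ^ m * (2 * B) := this.2
        _ = 2 ^ m * 2 * B := by ring

lemma KK_idle (q l : ℕ) (S : Finset (Finset ℕ)) (τ : ℕ) (hτ : τ % q = 0) (j : ℕ)
    (g : Finset ℕ → ℝ) (hj : j + 1 + l ≤ q) :
    KK q l S (τ + 1 + l) j g = fun y => 2 ^ j * g y := by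
  induction j generalizing g with
  | zero => simp [KK]
  | succ j ih =>
    simp only [KK]
    rw [ih _ (by omega)]
    funext y
    have h1 : (τ + 1 + l + j) % q = 1 + l + j := by
      rw [show τ + 1 + l + j = τ + (1 + l + j) by ring, Nat.add_mod, hτ, zero_add, Nat.mod_mod]
      exact Nat.mod_eq_of_lt (by omega)
    unfold Kop
    rw [h1, if_neg (by omega), if_neg (by omega)]
    ring

lemma KK_toggle (q l : ℕ) (S : Finset (Finset ℕ)) (τ : ℕ) (hτ : τ % q = 0) (hq : l < q) (j : ℕ)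
    (hj : j ≤ l) : ∀ (g : Finset ℕ → ℝ),
    KK q l S (τ + 1) j g = fun y => ∑ Z ∈ (Icc 1 j).powerset, g (symmDiff y Z) := by
  induction j with
  | zero =>
    intro g
    funext y
    have : (Icc 1 0 : Finset ℕ) = ∅ := rfl
    rw [this, Finset.powerset_empty, Finset.sum_singleton, ← Finset.bot_eq_empty, symmDiff_bot]
    rfl
  | succ j ih =>
    intro g
    simp only [KK]
    rw [ih (by omega)]
    funext y
    have h1 : (τ + 1 + j) % q = j + 1 := by
      rw [show τ + 1 + j = τ + (j + 1) by ring, Nat.add_mod, hτ, zero_add, Nat.mod_mod]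
      exact Nat.mod_eq_of_lt (by omega)
    have h2 : (Icc 1 (j + 1) : Finset ℕ) = insert (j + 1) (Icc 1 j) := by
      ext x
      simp only [Finset.mem_Icc, Finset.mem_insert]
      omega
    rw [h2, Finset.sum_powerset_insert (by simp), ← Finset.sum_add_distrib]
    refine Finset.sum_congr rfl (fun Z hZ => ?_)
    unfold Kop
    rw [h1, if_neg (by omega), if_pos hj]
    congr 2
    rw [symmDiff_assoc]
    congr 1
    have h3 : j + 1 ∉ Z := by
      intro h
      have := Finset.mem_powerset.mp hZ h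
      simp at this
    ext x
    rw [Finset.mem_symmDiff, Finset.mem_insert, Finset.mem_singleton]
    constructor
    · rintro (⟨h, _⟩ | ⟨h, _⟩)
      · exact Or.inr h
      · exact Or.inl h
    · rintro (h | h)
      · right
        exact ⟨h, by rw [h]; exact h3⟩
      · left
        exact ⟨h, by rintro rfl; exact h3 h⟩

lemma sum_shift (l : ℕ) (g : Finset ℕ → ℝ) (y : Finset ℕ) (hy : y ∈ (Icc 1 l).powerset) :
    ∑ Z ∈ (Icc 1 l).powerset, g (symmDiff y Z) = ∑ Z ∈ (Icc 1 l).powerset, g Z := by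
  refine Finset.sum_nbij' (fun Z => symmDiff y Z) (fun Z => symmDiff y Z) ?_ ?_ ?_ ?_ ?_
  · intro Z hZ
    exact symm_mem hy (Finset.mem_powerset.mp hZ)
  · intro Z hZ
    exact symm_mem hy (Finset.mem_powerset.mp hZ)
  · intro Z _
    simp
  · intro Z _
    simp
  · intro Z _
    rfl

lemma KK_cycle (q l : ℕ) (S : Finset (Finset ℕ)) (τ : ℕ) (hτ : τ % q = 0) (hq : l < q)
    (g : Finset ℕ → ℝ) (y : Finset ℕ) (hy : y ∈ (Icc 1 l).powerset) :
    KK q l S τ q g y = if y ∈ S then 0 else 2 ^ (q - l) * ∑ Z ∈ (Icc 1 l).powerset, g Z := by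
  have e : q = 1 + (l + (q - 1 - l)) := by omega
  have h1 : KK q l S τ q g = KK q l S τ (1 + (l + (q - 1 - l))) g := by rw [← e]
  rw [h1, KK_add, KK_add, KK_idle q l S τ hτ _ g (by omega), KK_toggle q l S τ hτ hq l (le_refl _)]
  simp only [KK]
  unfold Kop
  rw [add_zero, if_pos hτ]
  by_cases h : y ∈ S
  · rw [if_pos h, if_pos h]
  · rw [if_neg h, if_neg h]
    beta_reduce
    rw [sum_shift l (fun Z => 2 ^ (q - 1 - l) * g Z) y hy, ← Finset.mul_sum,
      ← mul_assoc]
    congr 1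
    rw [← pow_succ']
    congr 1
    omega

lemma sum_cycle (q l : ℕ) (S : Finset (Finset ℕ)) (hS : S ⊆ (Icc 1 l).powerset) (τ : ℕ)
    (hτ : τ % q = 0) (hq : l < q) (g : Finset ℕ → ℝ) :
    ∑ y ∈ (Icc 1 l).powerset, KK q l S τ q g y =
      (2 ^ q * (1 - (S.card : ℝ) / 2 ^ l)) * ∑ Z ∈ (Icc 1 l).powerset, g Z := by
  rw [Finset.sum_congr rfl (fun y hy => KK_cycle q l S τ hτ hq g y hy)]
  have h1 : ∑ y ∈ (Icc 1 l).powerset,
      (if y ∈ S then (0 : ℝ) else 2 ^ (q - l) * ∑ Z ∈ (Icc 1 l).powerset, g Z) =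
      ∑ y ∈ (Icc 1 l).powerset \ S, 2 ^ (q - l) * ∑ Z ∈ (Icc 1 l).powerset, g Z := by
    rw [← Finset.sum_sdiff hS]
    have h2 : ∑ y ∈ S, (if y ∈ S then (0 : ℝ) else 2 ^ (q - l) *
        ∑ Z ∈ (Icc 1 l).powerset, g Z) = 0 :=
      Finset.sum_eq_zero (fun y hy => if_pos hy)
    rw [h2, add_zero]
    exact Finset.sum_congr rfl (fun y hy => if_neg (Finset.mem_sdiff.mp hy).2)
  rw [h1, Finset.sum_const, nsmul_eq_mul, Finset.card_sdiff_of_subset hS,
    Nat.cast_sub (Finset.card_le_card hS), ← mul_assoc]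
  congr 1
  have h3 : ((Icc 1 l : Finset ℕ).powerset.card : ℝ) = 2 ^ l := by
    rw [Finset.card_powerset, Nat.card_Icc]
    simp
  rw [h3]
  have h4 : (2 : ℝ) ^ q = 2 ^ l * 2 ^ (q - l) := by
    rw [← pow_add]
    congr 1
    omega
  rw [h4]
  have h5 : (2 : ℝ) ^ l ≠ 0 := by positivity
  field_simp

lemma sum_cycles (q l : ℕ) (S : Finset (Finset ℕ)) (hS : S ⊆ (Icc 1 l).powerset)
    (hq : l < q) (N : ℕ) : ∀ (τ : ℕ), τ % q = 0 → ∀ (g : Finset ℕ → ℝ),
    ∑ y ∈ (Icc 1 l).powerset, KK q l S τ (N * q) g y =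
      (2 ^ q * (1 - (S.card : ℝ) / 2 ^ l)) ^ N * ∑ Z ∈ (Icc 1 l).powerset, g Z := by
  induction N with
  | zero => intro τ _ g; simp [KK]
  | succ N ih =>
    intro τ hτ g
    rw [show (N + 1) * q = q + N * q by ring, KK_add, sum_cycle q l S hS τ hτ hq,
      ih (τ + q) (by rw [Nat.add_mod_right]; exact hτ)]
    ring

lemma card_pow (l : ℕ) : (Icc 1 l : Finset ℕ).powerset.card = 2 ^ l := by
  rw [Finset.card_powerset, Nat.card_Icc]
  simp

lemma rho_nonneg (l : ℕ) (S : Finset (Finset ℕ)) (hS : S ⊆ (Icc 1 l).powerset) :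
    0 ≤ 1 - (S.card : ℝ) / 2 ^ l := by
  have h1 := Finset.card_le_card hS
  rw [card_pow] at h1
  have h2 : (S.card : ℝ) ≤ 2 ^ l := by exact_mod_cast h1
  rw [sub_nonneg, div_le_one (by positivity)]
  exact h2

lemma KK_long (q l : ℕ) (S : Finset (Finset ℕ)) (hS : S ⊆ (Icc 1 l).powerset)
    (hq : l < q) (hl : 1 ≤ l) (i m : ℕ) (hm : 2 * 2 ^ l * q ≤ m) (y : Finset ℕ)
    (hy : y ∈ (Icc 1 l).powerset) :
    KK q l S i m (fun _ => 1) y ≤ 2 ^ m * (1 - (S.card : ℝ) / 2 ^ l) ^ (2 ^ l) := by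
  have hq0 : 0 < q := by omega
  set ρ : ℝ := 1 - (S.card : ℝ) / 2 ^ l with hρ
  have hρ0 : 0 ≤ ρ := rho_nonneg l S hS
  set V := 2 ^ l with hV
  have hV2 : 2 ≤ V := by
    calc 2 = 2 ^ 1 := rfl
      _ ≤ 2 ^ l := Nat.pow_le_pow_right (by norm_num) hl
  obtain ⟨r, hr, hir⟩ : ∃ r, r < q ∧ (i + r) % q = 0 := by
    refine ⟨(q - i % q) % q, Nat.mod_lt _ hq0, ?_⟩
    have h1 := Nat.mod_lt i hq0
    by_cases h : i % q = 0
    · rw [h, Nat.sub_zero, Nat.mod_self, add_zero]
      exact h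
    · rw [Nat.mod_eq_of_lt (show q - i % q < q by omega)]
      have h2 := Nat.div_add_mod i q
      have h3 : i + (q - i % q) = q * (i / q + 1) := by
        rw [mul_add, mul_one]
        omega
      rw [h3]
      exact Nat.mul_mod_right _ _
  have h4 : r + (V + 1) * q ≤ m := by nlinarith
  obtain ⟨s, hs⟩ : ∃ s, m = r + (q + (V * q + s)) := ⟨m - (r + (V + 1) * q), by
    have : (V + 1) * q = q + V * q := by ring
    omega⟩
  rw [hs, KK_add]
  have hτ2 : (i + r + q) % q = 0 := by rw [Nat.add_mod_right]; exact hir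
  set g1 : Finset ℕ → ℝ := KK q l S (i + r + q + V * q) s (fun _ => 1) with hg1
  have hg1b := KK_bound q l S (i + r + q + V * q) s (fun _ => 1) 1 zero_le_one
    (fun y _ => ⟨zero_le_one, le_refl _⟩)
  have hsum1 : ∑ Z ∈ (Icc 1 l).powerset, g1 Z ≤ 2 ^ l * 2 ^ s := by
    calc ∑ Z ∈ (Icc 1 l).powerset, g1 Z ≤ ∑ Z ∈ (Icc 1 l).powerset, (2 : ℝ) ^ s :=
          Finset.sum_le_sum (fun Z hZ => by simpa using (hg1b Z hZ).2)
      _ = 2 ^ l * 2 ^ s := by
          rw [Finset.sum_const, card_pow, nsmul_eq_mul]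
          simp
  have hsum0 : 0 ≤ ∑ Z ∈ (Icc 1 l).powerset, g1 Z :=
    Finset.sum_nonneg (fun Z hZ => (hg1b Z hZ).1)
  have hinner : ∀ y ∈ (Icc 1 l).powerset,
      0 ≤ KK q l S (i + r) (q + (V * q + s)) (fun _ => 1) y ∧
      KK q l S (i + r) (q + (V * q + s)) (fun _ => 1) y ≤ 2 ^ (q + V * q + s) * ρ ^ V := by
    intro y hy
    rw [KK_add, KK_add, ← hg1, KK_cycle q l S (i + r) hir hq _ y hy,
      sum_cycles q l S hS hq V (i + r + q) hτ2 g1, ← hρ]
    split_ifs with h
    · exact ⟨le_refl _, by positivity⟩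
    · refine ⟨by positivity, ?_⟩
      calc 2 ^ (q - l) * ((2 ^ q * ρ) ^ V * ∑ Z ∈ (Icc 1 l).powerset, g1 Z)
          ≤ 2 ^ (q - l) * ((2 ^ q * ρ) ^ V * (2 ^ l * 2 ^ s)) := by gcongr
        _ = (2 ^ (q - l) * 2 ^ l) * (2 ^ q) ^ V * 2 ^ s * ρ ^ V := by rw [mul_pow]; ring
        _ = 2 ^ (q + V * q + s) * ρ ^ V := by
            rw [← pow_add, Nat.sub_add_cancel hq.le, ← pow_mul, ← pow_add, ← pow_add]
            congr 2
            ring
  have := (KK_bound q l S i r _ _ (by positivity) hinner y hy).2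
  calc _ ≤ 2 ^ r * (2 ^ (q + V * q + s) * ρ ^ V) := this
    _ = 2 ^ (r + (q + (V * q + s))) * ρ ^ V := by
        rw [← mul_assoc, ← pow_add]
        congr 2
        ring

lemma rho_pow (l : ℕ) (S : Finset (Finset ℕ)) (hS : S ⊆ (Icc 1 l).powerset) :
    (1 - (S.card : ℝ) / 2 ^ l) ^ (2 ^ l) ≤ (1 / 2) ^ S.card := by
  have h0 := rho_nonneg l S hS
  have h1 : 1 - (S.card : ℝ) / 2 ^ l ≤ Real.exp (-((S.card : ℝ) / 2 ^ l)) := by
    have := Real.add_one_le_exp (-((S.card : ℝ) / 2 ^ l))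
    linarith
  calc (1 - (S.card : ℝ) / 2 ^ l) ^ (2 ^ l)
      ≤ (Real.exp (-((S.card : ℝ) / 2 ^ l))) ^ (2 ^ l) := by gcongr
    _ = Real.exp (-(S.card : ℝ)) := by
        rw [← Real.exp_nat_mul]
        congr 1
        push_cast
        field_simp
    _ = (Real.exp (-1)) ^ S.card := by
        rw [← Real.exp_nat_mul]
        congr 1
        ring
    _ ≤ (1 / 2) ^ S.card := by
        have : Real.exp (-1) ≤ 1 / 2 := by
          rw [Real.exp_neg, inv_eq_one_div]
          have := Real.add_one_le_exp (1 : ℝ)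
          apply one_div_le_one_div_of_le (by norm_num)
          linarith
        gcongr

lemma bsum_chi (a b : α) (hab : a ≠ b) (q l : ℕ) (S : Finset (Finset ℕ))
    (hS : S ⊆ (Icc 1 l).powerset) (hq : l < q) (hl : 1 ≤ l) (i m : ℕ)
    (hm : 2 * 2 ^ l * q ≤ m) :
    bsum a b (i + m) (fun v => chi b q l S v (sfx i v)) ≤ 2 ^ (i + m) * (1 / 2) ^ S.card := by
  have h1 := bsum_KK a b hab q l S i m (fun _ => 1)
  simp only [mul_one] at h1
  rw [h1]
  calc bsum a b i (fun v => KK q l S i m (fun _ => 1) (Y b q l v))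
      ≤ bsum a b i (fun _ => 2 ^ m * (1 / 2) ^ S.card) := by
        refine bsum_le _ _ _ _ _ (fun v _ => ?_)
        refine (KK_long q l S hS hq hl i m hm _
          (Finset.mem_powerset.mpr (Y_subset b q l v))).trans ?_
        gcongr
        exact rho_pow l S hS
    _ = 2 ^ (i + m) * (1 / 2) ^ S.card := by
        rw [bsum_const, pow_add]
        ring

lemma ind_Lam (b : α) (q l : ℕ) (v v0 : List α) :
    (if Lam b q l v = Lam b q l v0 then (1 : ℝ) else 0) =
      (1 / 2) ^ (2 ^ l) * ∑ S ∈ ((Icc 1 l).powerset).powerset, chi b q l S v v0 := by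
  unfold chi
  rw [← Finset.prod_one_add]
  by_cases h : Lam b q l v = Lam b q l v0
  · rw [if_pos h, h]
    simp only [if_true]
    rw [Finset.prod_const, card_pow, ← mul_pow]
    norm_num
  · rw [if_neg h]
    have : ∃ y ∈ (Icc 1 l).powerset, ¬ (y ∈ Lam b q l v ↔ y ∈ Lam b q l v0) := by
      by_contra hcon
      push Not at hcon
      apply h
      ext y
      constructor
      · intro hy; exact (hcon y (Lam_subset b q l v hy)).mp hy
      · intro hy; exact (hcon y (Lam_subset b q l v0 hy)).mpr hy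
    obtain ⟨y, hy, hy2⟩ := this
    rw [Finset.prod_eq_zero hy (by rw [if_neg hy2]; norm_num), mul_zero]

lemma bsum_Lam (a b : α) (hab : a ≠ b) (q l : ℕ) (hq : l < q) (hl : 1 ≤ l) (i m : ℕ)
    (hm : 2 * 2 ^ l * q ≤ m) :
    bsum a b (i + m) (fun v => if Lam b q l v = Lam b q l (sfx i v) then (1 : ℝ) else 0) ≤
      2 ^ (i + m) * (3 / 4) ^ (2 ^ l) := by
  simp only [ind_Lam]
  rw [bsum_mul, bsum_sum]
  calc (1 / 2 : ℝ) ^ (2 ^ l) * ∑ S ∈ ((Icc 1 l).powerset).powerset,
        bsum a b (i + m) (fun v => chi b q l S v (sfx i v))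
      ≤ (1 / 2 : ℝ) ^ (2 ^ l) * ∑ S ∈ ((Icc 1 l).powerset).powerset,
        2 ^ (i + m) * (1 / 2) ^ S.card := by
        gcongr with S hS
        exact bsum_chi a b hab q l S (Finset.mem_powerset.mp hS) hq hl i m hm
    _ = 2 ^ (i + m) * ((1 / 2 : ℝ) ^ (2 ^ l) * ∑ S ∈ ((Icc 1 l).powerset).powerset,
        (1 / 2) ^ S.card) := by
        rw [← Finset.mul_sum]
        ring
    _ = 2 ^ (i + m) * (3 / 4) ^ (2 ^ l) := by
        have h1 : ∑ S ∈ ((Icc 1 l : Finset ℕ).powerset).powerset, (1 / 2 : ℝ) ^ S.card =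
            (3 / 2) ^ (2 ^ l) := by
          have := Finset.prod_one_add (s := (Icc 1 l : Finset ℕ).powerset)
            (f := fun _ => (1 / 2 : ℝ))
          simp only [Finset.prod_const, card_pow] at this
          rw [← this]
          norm_num
        rw [h1, ← mul_pow]
        norm_num

end Pool.Agent.Work.MP_02e323_helper29
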