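import Mathlib
import Pool.Agent.Work.MP_02e323_helper29.Count

/-!
# Most words are determined by the parities of their subword counts
-/

set_option autoImplicit false

open Finset

namespace Pool.Agent.Work.MP_02e323_helper29

variable {α : Type*}

lemma not_selfAv {σ : Type*} (S : List α → σ) (v : List α) (h : ¬ SelfAv S v) :
    ∃ i' i, i < i' ∧ i' < v.length ∧ S (sfx i v) = S (sfx i' v) := by
  induction v with
  | nil => exact absurd (by simp [SelfAv, edges]) h
  | cons c v ih =>
    by_cases h1 : SelfAv S v
    · have h2 : S v ∈ (edges S v).map Prod.snd := by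
        by_contra hcon
        apply h
        unfold SelfAv at h1 ⊢
        simp only [edges, List.map_cons, List.nodup_cons]
        exact ⟨hcon, h1⟩
      obtain ⟨⟨x, s⟩, hx, hs⟩ := List.mem_map.mp h2
      obtain ⟨xs, u, h3, h4⟩ := mem_edges.mp hx
      simp only at hs
      have h5 : u.length < v.length := by
        rw [h3]
        simp
        omega
      refine ⟨v.length, u.length, h5, by simp, ?_⟩
      rw [sfx_cons h5.le, sfx_cons (le_refl _), sfx_self]
      have h6 : sfx u.length v = u := by
        rw [h3, show xs ++ x :: u = (xs ++ [x]) ++ u by simp, sfx_append]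
      rw [h6, h4, hs]
    · obtain ⟨i', i, h2, h3, h4⟩ := ih h1
      refine ⟨i', i, h2, by simp; omega, ?_⟩
      rw [sfx_cons (by omega), sfx_cons (by omega)]
      exact h4

variable [DecidableEq α]

open Classical in
lemma bsum_pair (a b : α) (hab : a ≠ b) (e l E : ℕ) (hq : l < 2 ^ e) (hl : 1 ≤ l)
    (hE : 2 * 2 ^ l * 2 ^ e ≤ 2 ^ E) (i i' : ℕ) (hi : i < i') :
    bsum a b i' (fun v => if St b (2 ^ e) l (2 ^ E) (sfx i v) = St b (2 ^ e) l (2 ^ E) v
      then (1 : ℝ) else 0) ≤ 2 ^ i' * (3 / 4) ^ (2 ^ l) := by
  by_cases hmod : i % 2 ^ E = i' % 2 ^ E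
  · obtain ⟨m, rfl⟩ : ∃ m, i' = i + m := ⟨i' - i, by omega⟩
    have hm : 2 ^ E ≤ m := by
      have h1 : m % 2 ^ E = 0 := by
        have h2 : i ≡ i + m [MOD 2 ^ E] := hmod
        have h3 : i + 0 ≡ i + m [MOD 2 ^ E] := by simpa using h2
        have h4 := Nat.ModEq.add_left_cancel' i h3
        exact (Nat.ModEq.symm h4)
      exact Nat.le_of_dvd (by omega) (Nat.dvd_of_mod_eq_zero h1)
    refine le_trans (bsum_le _ _ _ _ _ (fun v hv => ?_)) (bsum_Lam a b hab (2 ^ e) l hq hl i m
      (hE.trans hm))
    by_cases h : St b (2 ^ e) l (2 ^ E) (sfx i v) = St b (2 ^ e) l (2 ^ E) v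
    · rw [if_pos h]
      have : Lam b (2 ^ e) l v = Lam b (2 ^ e) l (sfx i v) := (congrArg Prod.snd h).symm
      rw [if_pos this]
    · rw [if_neg h]
      split_ifs <;> norm_num
  · refine le_trans (bsum_le _ _ _ _ (fun _ => 0) (fun v hv => ?_)) ?_
    · rw [if_neg]
      intro h
      have h1 := congrArg Prod.fst h
      simp only [St] at h1
      rw [sfx_length (by omega), hv] at h1
      exact hmod h1
    · rw [bsum_zero]
      positivity

open Classical in
lemma bsum_bad (a b : α) (hab : a ≠ b) (e l E : ℕ) (hq : l < 2 ^ e) (hl : 1 ≤ l)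
    (hE : 2 * 2 ^ l * 2 ^ e ≤ 2 ^ E) (N : ℕ) :
    bsum a b N (fun v => if SelfAv (St b (2 ^ e) l (2 ^ E)) v then (0 : ℝ) else 1) ≤
      (N : ℝ) ^ 2 * (3 / 4) ^ (2 ^ l) * 2 ^ N := by
  set S := St b (2 ^ e) l (2 ^ E) with hS
  have h1 : ∀ v : List α, v.length = N → (if SelfAv S v then (0 : ℝ) else 1) ≤
      ∑ i' ∈ range N, ∑ i ∈ range i', (if S (sfx i v) = S (sfx i' v) then (1 : ℝ) else 0) := by
    intro v hv
    by_cases h : SelfAv S v
    · rw [if_pos h]
      exact Finset.sum_nonneg (fun i' _ => Finset.sum_nonneg (fun i _ => by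
        split_ifs <;> norm_num))
    · rw [if_neg h]
      obtain ⟨i', i, h2, h3, h4⟩ := not_selfAv S v h
      calc (1 : ℝ) = (if S (sfx i v) = S (sfx i' v) then (1 : ℝ) else 0) := by rw [if_pos h4]
        _ ≤ ∑ i ∈ range i', (if S (sfx i v) = S (sfx i' v) then (1 : ℝ) else 0) :=
            Finset.single_le_sum (f := fun i => if S (sfx i v) = S (sfx i' v) then (1 : ℝ) else 0)
              (fun i _ => by split_ifs <;> norm_num) (Finset.mem_range.mpr h2)
        _ ≤ _ := Finset.single_le_sum (f := fun i' => ∑ i ∈ range i',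
              (if S (sfx i v) = S (sfx i' v) then (1 : ℝ) else 0))
              (fun i' _ => Finset.sum_nonneg (fun i _ => by split_ifs <;> norm_num))
              (Finset.mem_range.mpr (by omega))
  refine (bsum_le _ _ _ _ _ h1).trans ?_
  rw [bsum_sum]
  have h2 : ∀ i' ∈ range N, bsum a b N (fun v => ∑ i ∈ range i',
      (if S (sfx i v) = S (sfx i' v) then (1 : ℝ) else 0)) ≤ N * (2 ^ N * (3 / 4) ^ (2 ^ l)) := by
    intro i' hi'
    rw [Finset.mem_range] at hi'
    rw [bsum_sum]
    have h3 : ∀ i ∈ range i', bsum a b N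
        (fun v => if S (sfx i v) = S (sfx i' v) then (1 : ℝ) else 0) ≤
        2 ^ N * (3 / 4) ^ (2 ^ l) := by
      intro i hi
      rw [Finset.mem_range] at hi
      obtain ⟨j, rfl⟩ : ∃ j, N = i' + j := ⟨N - i', by omega⟩
      have h4 : bsum a b (i' + j) (fun v => if S (sfx i v) = S (sfx i' v) then (1 : ℝ) else 0) =
          bsum a b (i' + j) (fun v => (fun v' => if S (sfx i v') = S v' then (1 : ℝ) else 0)
            (sfx i' v)) := by
        refine bsum_congr _ _ _ _ _ (fun v hv => ?_)
        simp only
        rw [sfx_sfx hi.le (by omega)]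
      rw [h4, bsum_sfx a b i' (fun v' => if S (sfx i v') = S v' then (1 : ℝ) else 0), pow_add]
      have h5 := bsum_pair a b hab e l E hq hl hE i i' hi
      calc 2 ^ j * bsum a b i' (fun v' => if S (sfx i v') = S v' then (1 : ℝ) else 0)
          ≤ 2 ^ j * (2 ^ i' * (3 / 4) ^ (2 ^ l)) := by gcongr
        _ = _ := by ring
    refine (Finset.sum_le_sum h3).trans ?_
    rw [Finset.sum_const, Finset.card_range, nsmul_eq_mul]
    have h6 : (i' : ℝ) ≤ N := by exact_mod_cast hi'.le
    have h7 : (0 : ℝ) ≤ 2 ^ N * (3 / 4) ^ (2 ^ l) := by positivity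
    exact mul_le_mul_of_nonneg_right h6 h7
  refine (Finset.sum_le_sum h2).trans ?_
  rw [Finset.sum_const, Finset.card_range, nsmul_eq_mul]
  apply le_of_eq
  ring

/-! ### General alphabets -/

variable [Fintype α]

/-- Sum of `g` over all words of length `n`. -/
def asum : ℕ → (List α → ℝ) → ℝ
  | 0, g => g []
  | n + 1, g => asum n (fun v => ∑ c, g (c :: v))

omit [DecidableEq α] in
lemma asum_le (n : ℕ) : ∀ (g g' : List α → ℝ),
    (∀ v, v.length = n → g v ≤ g' v) → asum n g ≤ asum n g' := by
  induction n with
  | zero => intro g g' h; exact h [] rfl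
  | succ n ih =>
    intro g g' h
    refine ih _ _ (fun v hv => ?_)
    exact Finset.sum_le_sum (fun c _ => h _ (by simp [hv]))

omit [DecidableEq α] in
lemma asum_congr (n : ℕ) (g g' : List α → ℝ)
    (h : ∀ v, v.length = n → g v = g' v) : asum n g = asum n g' :=
  le_antisymm (asum_le n g g' fun v hv => (h v hv).le)
    (asum_le n g' g fun v hv => (h v hv).ge)

omit [DecidableEq α] in
lemma asum_add (n : ℕ) : ∀ (g g' : List α → ℝ),
    asum n (fun v => g v + g' v) = asum n g + asum n g' := by
  induction n with
  | zero => intro g g'; rfl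
  | succ n ih =>
    intro g g'
    simp only [asum]
    rw [← ih]
    congr 1
    funext v
    rw [Finset.sum_add_distrib]

omit [DecidableEq α] in
lemma asum_mul (n : ℕ) : ∀ (r : ℝ) (g : List α → ℝ),
    asum n (fun v => r * g v) = r * asum n g := by
  induction n with
  | zero => intro r g; rfl
  | succ n ih =>
    intro r g
    simp only [asum]
    rw [← ih]
    congr 1
    funext v
    rw [Finset.mul_sum]

omit [DecidableEq α] in
lemma asum_sum {ι : Type*} (n : ℕ) (s : Finset ι) (g : ι → List α → ℝ) :
    asum n (fun v => ∑ i ∈ s, g i v) = ∑ i ∈ s, asum n (g i) := by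
  classical
  induction s using Finset.induction_on with
  | empty =>
    have := asum_mul n 0 (fun _ : List α => (0 : ℝ))
    simpa using this
  | insert i s hi ih =>
    rw [Finset.sum_insert hi, ← ih, ← asum_add]
    congr 1
    funext v
    rw [Finset.sum_insert hi]

/-- restriction of a word to the letters `a`, `b` -/
def fil (a b : α) (w : List α) : List α := w.filter (fun x => x = a ∨ x = b)

lemma asum_fil (a b : α) (hab : a ≠ b) (n : ℕ) : ∀ (g : List α → ℝ) (ε : ℝ), 
    (∀ N ≤ n, bsum a b N g ≤ ε * 2 ^ N) →
    asum n (fun v => g (fil a b v)) ≤ ε * (Fintype.card α : ℝ) ^ n := by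
  have hcard : (2 : ℝ) ≤ Fintype.card α := by
    have : 1 < Fintype.card α := Fintype.one_lt_card_iff.mpr ⟨a, b, hab⟩
    exact_mod_cast this
  induction n with
  | zero =>
    intro g ε h
    have := h 0 (le_refl _)
    simpa [asum, bsum, fil] using this
  | succ n ih =>
    intro g ε h
    simp only [asum]
    have e1 : (fun v : List α => ∑ c, g (fil a b (c :: v))) =
        fun v => ((Fintype.card α : ℝ) - 2) * g (fil a b v) +
          (fun v' => g (a :: v') + g (b :: v')) (fil a b v) := by
      funext v
      have e2 : ∀ c : α, g (fil a b (c :: v)) = g (fil a b v) +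
          (if c = a then g (a :: fil a b v) - g (fil a b v) else 0) +
          (if c = b then g (b :: fil a b v) - g (fil a b v) else 0) := by
        intro c
        by_cases h1 : c = a
        · subst h1
          rw [if_pos rfl, if_neg hab]
          simp [fil]
        · by_cases h2 : c = b
          · subst h2
            rw [if_neg h1, if_pos rfl]
            simp [fil]
          · rw [if_neg h1, if_neg h2]
            simp [fil, h1, h2]
      rw [Finset.sum_congr rfl (fun c _ => e2 c), Finset.sum_add_distrib, Finset.sum_add_distrib,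
        Finset.sum_ite_eq', Finset.sum_ite_eq']
      simp only [Finset.sum_const, Finset.card_univ, nsmul_eq_mul, Finset.mem_univ, if_true]
      ring
    rw [e1, asum_add, asum_mul]
    have h1 := ih g ε (fun N hN => h N (by omega))
    have h2 := ih (fun v' => g (a :: v') + g (b :: v')) (2 * ε) (fun N hN => by
      have := h (N + 1) (by omega)
      simp only [bsum] at this
      calc _ ≤ ε * 2 ^ (N + 1) := this
        _ = 2 * ε * 2 ^ N := by ring)
    calc ((Fintype.card α : ℝ) - 2) * asum n (fun v => g (fil a b v)) +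
          asum n (fun v => (fun v' => g (a :: v') + g (b :: v')) (fil a b v))
        ≤ ((Fintype.card α : ℝ) - 2) * (ε * (Fintype.card α : ℝ) ^ n) +
          2 * ε * (Fintype.card α : ℝ) ^ n := by
          have : 0 ≤ (Fintype.card α : ℝ) - 2 := by linarith
          gcongr
      _ = ε * (Fintype.card α : ℝ) ^ (n + 1) := by ring

lemma occ_fil (p : α → Bool) (w : List α) : ∀ (u : List α),
    occ u (w.filter p) = if (∀ x ∈ u, p x = true) then occ u w else 0 := by
  induction w with
  | nil =>
    intro u
    rcases u with _ | ⟨c, u⟩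
    · simp [occ_nil]
    · simp [occ_cons_nil]
  | cons d w ih =>
    intro u
    rcases u with _ | ⟨c, u⟩
    · simp [occ_nil]
    · by_cases hd : p d = true
      · rw [List.filter_cons_of_pos hd, occ_cons_cons, occ_cons_cons, ih, ih]
        by_cases h1 : ∀ x ∈ c :: u, p x = true
        · have h2 : ∀ x ∈ u, p x = true := fun x hx => h1 x (List.mem_cons_of_mem _ hx)
          rw [if_pos h1, if_pos h1, if_pos h2]
        · rw [if_neg h1, if_neg h1]
          by_cases hcd : c = d
          · have h2 : ¬ ∀ x ∈ u, p x = true := by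
              intro h2
              apply h1
              intro x hx
              rcases List.mem_cons.mp hx with h3 | h3
              · rw [h3, hcd]; exact hd
              · exact h2 x h3
            rw [if_neg h2]
            simp
          · rw [if_neg hcd]
      · rw [List.filter_cons_of_neg hd, ih, occ_cons_cons]
        by_cases h1 : ∀ x ∈ c :: u, p x = true
        · have h2 : c ≠ d := by
            rintro rfl
            exact hd (h1 c List.mem_cons_self)
          rw [if_pos h1, if_pos h1, if_neg h2, add_zero]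
        · rw [if_neg h1, if_neg h1]

lemma samePar_fil {t : ℕ} {w w' : List α} (h : SamePar t w w') (a b : α) :
    SamePar t (fil a b w) (fil a b w') := by
  intro u hu
  unfold fil
  rw [occ_fil, occ_fil]
  split_ifs
  · exact h u hu
  · rfl

omit [Fintype α] in
lemma eq_of_fil (hα : ∀ x : α, ∃ y, y ≠ x) (w : List α) : ∀ (w' : List α),
    (∀ a b, a ≠ b → fil a b w' = fil a b w) → w' = w := by
  induction w with
  | nil =>
    intro w' h
    rcases w' with _ | ⟨d, w'⟩
    · rfl
    · obtain ⟨y, hy⟩ := hα d
      have := h d y hy.symm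
      simp [fil] at this
  | cons c w ih =>
    intro w' h
    rcases w' with _ | ⟨d, w'⟩
    · obtain ⟨y, hy⟩ := hα c
      have := h c y hy.symm
      simp [fil] at this
    · have hcd : d = c := by
        by_contra hcon
        have := h d c hcon
        simp [fil] at this
        exact hcon this.1
      subst hcd
      congr 1
      apply ih
      intro a b hab
      have := h a b hab
      unfold fil at this ⊢
      by_cases hd : d = a ∨ d = b
      · rw [List.filter_cons_of_pos (by simpa using hd),
          List.filter_cons_of_pos (by simpa using hd)] at this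
        exact (List.cons.inj this).2
      · rw [List.filter_cons_of_neg (by simpa using hd),
          List.filter_cons_of_neg (by simpa using hd)] at this
        exact this

omit [Fintype α] in
lemma length_fil (a b : α) (hab : a ≠ b) (w : List α) :
    (fil a b w).length = w.count a + w.count b := by
  induction w with
  | nil => simp [fil]
  | cons c w ih =>
    unfold fil at ih ⊢
    by_cases h1 : c = a
    · subst h1
      rw [List.filter_cons_of_pos (by simp), List.length_cons, ih, List.count_cons_self,
        List.count_cons_of_ne hab]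
      ring
    · by_cases h2 : c = b
      · subst h2
        rw [List.filter_cons_of_pos (by simp), List.length_cons, ih, List.count_cons_self,
          List.count_cons_of_ne h1]
        ring
      · rw [List.filter_cons_of_neg (by simp [h1, h2]), ih, List.count_cons_of_ne h1,
          List.count_cons_of_ne h2]

lemma sum_count (w : List α) : ∑ x, w.count x = w.length := by
  induction w with
  | nil => simp
  | cons c w ih =>
    simp only [List.count_cons, List.length_cons]
    rw [Finset.sum_add_distrib, ih]
    simp

lemma count_pair (w w' : List α) (hl : w'.length = w.length)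
    (h : ∀ a b, a ≠ b → w.count a + w.count b ≤ w'.count a + w'.count b) :
    ∀ a b, a ≠ b → w'.count a + w'.count b = w.count a + w.count b := by
  set δ : α → ℤ := fun x => (w'.count x : ℤ) - w.count x with hδ
  have hsum : ∑ x, δ x = 0 := by
    have h1 := sum_count w
    have h2 := sum_count w'
    simp only [hδ]
    rw [Finset.sum_sub_distrib]
    have h3 : ∑ x, (w'.count x : ℤ) = w'.length := by exact_mod_cast h2
    have h4 : ∑ x, (w.count x : ℤ) = w.length := by exact_mod_cast h1
    rw [h3, h4, hl, sub_self]
  have hnn : ∀ x y, 0 ≤ (if x = y then 0 else δ x + δ y) := by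
    intro x y
    split_ifs with hxy
    · exact le_refl _
    · have := h x y hxy
      simp only [hδ]
      omega
  have htot : ∑ x, ∑ y, (if x = y then 0 else δ x + δ y) = 0 := by
    have e : ∀ x y, (if x = y then 0 else δ x + δ y) =
        δ x + δ y - (if x = y then δ x + δ y else 0) := by
      intro x y
      split_ifs <;> ring
    simp only [e]
    simp only [Finset.sum_sub_distrib, Finset.sum_add_distrib, Finset.sum_const, nsmul_eq_mul,
      hsum, Finset.sum_ite_eq, Finset.mem_univ, if_true]
    rw [← Finset.mul_sum, hsum]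
    ring
  intro a b hab
  have h1 := (Finset.sum_eq_zero_iff_of_nonneg
    (fun x _ => Finset.sum_nonneg (fun y _ => hnn x y))).mp htot a (Finset.mem_univ a)
  have h2 := (Finset.sum_eq_zero_iff_of_nonneg (fun y _ => hnn a y)).mp h1 b (Finset.mem_univ b)
  rw [if_neg hab] at h2
  simp only [hδ] at h2
  omega

/-- If all restrictions of `w` to two letters have self-avoiding state sequences, then `w` is
determined. -/
lemma det_all (hα : ∀ x : α, ∃ y, y ≠ x) (e l E t : ℕ)
    (ht : 2 ^ E + 2 ^ l * (2 ^ e * (l + 1)) ≤ t) (w w' : List α)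
    (hgood : ∀ a b, a ≠ b → SelfAv (St b (2 ^ e) l (2 ^ E)) (fil a b w))
    (hs : SamePar t w w') (hl : w'.length = w.length) : w' = w := by
  have key : ∀ a b, a ≠ b → ∀ p ∈ edges (St b (2 ^ e) l (2 ^ E)) (fil a b w),
      cnt (St b (2 ^ e) l (2 ^ E)) (fil a b w) p =
      cnt (St b (2 ^ e) l (2 ^ E)) (fil a b w') p := by
    intro a b hab p hp
    obtain ⟨c, s⟩ := p
    obtain ⟨xs, v, _, h2⟩ := mem_edges.mp hp
    have hs2 : s.2 ⊆ (Icc 1 l).powerset := by
      rw [← h2]
      exact Lam_subset b (2 ^ e) l v
    have h3 := poly_mono ht (poly_flow b e l E c s hs2)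
    have h4 := poly_eq_of_samePar (samePar_fil hs a b) h3
    rw [flow_eq, flow_eq] at h4
    exact h4
  have hlen : ∀ a b, a ≠ b → w.count a + w.count b ≤ w'.count a + w'.count b := by
    intro a b hab
    have h1 := (det_length (hgood a b hab) (key a b hab)).length_le
    rw [edges_length, edges_length, length_fil a b hab, length_fil a b hab] at h1
    exact h1
  have heq := count_pair w w' hl hlen
  apply eq_of_fil hα
  intro a b hab
  apply det_main (hgood a b hab) (key a b hab)
  rw [length_fil a b hab, length_fil a b hab, heq a b hab]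

/-- `cons` as an embedding -/
def consEmb : α × List α ↪ List α := ⟨fun p => p.1 :: p.2, by
      rintro ⟨a, v⟩ ⟨b, v'⟩ h
      simpa using h⟩

omit [DecidableEq α] [Fintype α] in
lemma consEmb_apply (a : α) (v : List α) : consEmb (a, v) = a :: v := rfl

/-- The set of all words of length `n`. -/
def words : ℕ → Finset (List α)
  | 0 => {[]}
  | n + 1 => ((univ : Finset α) ×ˢ words n).map consEmb

omit [DecidableEq α] in
lemma mem_words (n : ℕ) : ∀ (w : List α), w ∈ words (α := α) n ↔ w.length = n := by
  induction n with
  | zero => intro w; simp [words]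
  | succ n ih =>
    intro w
    simp only [words, Finset.mem_map, Finset.mem_product, Finset.mem_univ, true_and,
      Prod.exists, ih, consEmb_apply]
    constructor
    · rintro ⟨a, v, h1, h2⟩
      rw [← h2]
      simp [h1]
    · intro h
      rcases w with _ | ⟨a, v⟩
      · simp at h
      · exact ⟨a, v, by simpa using h, rfl⟩

omit [DecidableEq α] in
lemma sum_words (n : ℕ) : ∀ (g : List α → ℝ), ∑ w ∈ words n, g w = asum n g := by
  induction n with
  | zero => intro g; simp [words, asum]
  | succ n ih =>
    intro g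
    simp only [words, asum]
    rw [← ih, Finset.sum_map, Finset.sum_product, Finset.sum_comm]
    rfl

open Classical in
omit [DecidableEq α] in
lemma ncard_asum (n : ℕ) (P : List α → Prop) :
    ({w : List α | w.length = n ∧ P w}.ncard : ℝ) = asum n (fun w => if P w then 1 else 0) := by
  have h1 : {w : List α | w.length = n ∧ P w} = ((words n).filter P : Finset (List α)) := by
    ext w
    simp [mem_words]
  rw [h1, Set.ncard_coe_finset, ← sum_words, Finset.card_filter]
  push_cast
  rfl

omit [DecidableEq α] [Fintype α] in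
lemma finite_len [Finite α] (n : ℕ) (P : List α → Prop) :
    {w : List α | w.length = n ∧ P w}.Finite :=
  (List.finite_length_eq α n).subset (fun _ h => h.1)

open Classical in
/-- Counting form of the theorem. -/
theorem count_main (hα : ∀ x : α, ∃ y, y ≠ x) (e l E t : ℕ) (hq : l < 2 ^ e) (hl : 1 ≤ l)
    (hE : 2 * 2 ^ l * 2 ^ e ≤ 2 ^ E)
    (ht : 2 ^ E + 2 ^ l * (2 ^ e * (l + 1)) ≤ t) (n : ℕ) :
    ({w : List α | w.length = n ∧
      ¬ ∀ w' : List α, w'.length = w.length → SamePar t w w' → w' = w}.ncard : ℝ) ≤
      (Fintype.card α : ℝ) ^ 2 * ((n : ℝ) ^ 2 * (3 / 4) ^ (2 ^ l)) *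
        (Fintype.card α : ℝ) ^ n := by
  obtain ⟨P, hP⟩ : ∃ P : List α → Prop, P = fun w => ¬ ∀ w' : List α, w'.length = w.length →
    SamePar t w w' → w' = w := ⟨_, rfl⟩
  have hset : {w : List α | w.length = n ∧
      ¬ ∀ w' : List α, w'.length = w.length → SamePar t w w' → w' = w} =
      {w : List α | w.length = n ∧ P w} := by rw [hP]
  rw [hset, ncard_asum]
  have h1 : ∀ w : List α, w.length = n →
      (if P w then (1 : ℝ) else 0) ≤
      ∑ p ∈ (univ : Finset (α × α)), (if p.1 = p.2 then (0 : ℝ) else
        (fun v => if SelfAv (St p.2 (2 ^ e) l (2 ^ E)) v then (0 : ℝ) else 1)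
          (fil p.1 p.2 w)) := by
    intro w _
    have hnn : ∀ p ∈ (univ : Finset (α × α)), 0 ≤ (if p.1 = p.2 then (0 : ℝ) else
        (fun v => if SelfAv (St p.2 (2 ^ e) l (2 ^ E)) v then (0 : ℝ) else 1)
          (fil p.1 p.2 w)) := by
      intro p _
      simp only
      split_ifs <;> norm_num
    by_cases h : ∀ w' : List α, w'.length = w.length → SamePar t w w' → w' = w
    · rw [if_neg (show ¬ P w by rw [hP]; exact not_not.mpr h)]
      exact Finset.sum_nonneg hnn
    · rw [if_pos (show P w by rw [hP]; exact h)]
      have : ∃ a b, a ≠ b ∧ ¬ SelfAv (St b (2 ^ e) l (2 ^ E)) (fil a b w) := by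
        by_contra hcon
        push Not at hcon
        exact h (fun w' h1 h2 => det_all hα e l E t ht w w' hcon h2 h1)
      obtain ⟨a, b, hab, hb⟩ := this
      calc (1 : ℝ) = (if a = b then (0 : ℝ) else
          (fun v => if SelfAv (St b (2 ^ e) l (2 ^ E)) v then (0 : ℝ) else 1) (fil a b w)) := by
            rw [if_neg hab]
            simp only
            rw [if_neg hb]
        _ ≤ _ := Finset.single_le_sum (f := fun p : α × α => (if p.1 = p.2 then (0 : ℝ) else
            (fun v => if SelfAv (St p.2 (2 ^ e) l (2 ^ E)) v then (0 : ℝ) else 1)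
              (fil p.1 p.2 w))) hnn (Finset.mem_univ (a, b))
  refine (asum_le _ _ _ h1).trans ?_
  rw [asum_sum]
  have h2 : ∀ p ∈ (univ : Finset (α × α)), asum n (fun w : List α =>
      (if p.1 = p.2 then (0 : ℝ) else
        (fun v => if SelfAv (St p.2 (2 ^ e) l (2 ^ E)) v then (0 : ℝ) else 1)
          (fil p.1 p.2 w))) ≤ (n : ℝ) ^ 2 * (3 / 4) ^ (2 ^ l) * (Fintype.card α : ℝ) ^ n := by
    intro p _
    by_cases hp : p.1 = p.2
    · simp only [hp, if_true]
      have := asum_mul n 0 (fun _ : List α => (0 : ℝ))
      simp only [zero_mul] at this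
      rw [this]
      positivity
    · simp only [hp, if_false]
      apply asum_fil p.1 p.2 hp n
        (fun v => if SelfAv (St p.2 (2 ^ e) l (2 ^ E)) v then (0 : ℝ) else 1)
      intro N hN
      refine (bsum_bad p.1 p.2 hp e l E hq hl hE N).trans ?_
      have : (N : ℝ) ≤ n := by exact_mod_cast hN
      gcongr
  calc _ ≤ ∑ p ∈ (univ : Finset (α × α)),
        (n : ℝ) ^ 2 * (3 / 4) ^ (2 ^ l) * (Fintype.card α : ℝ) ^ n := Finset.sum_le_sum h2
    _ = _ := by
        rw [Finset.sum_const, Finset.card_univ, Fintype.card_prod, nsmul_eq_mul]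
        push_cast
        ring

end Pool.Agent.Work.MP_02e323_helper29
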